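import Pool.Agent.H71.FJ.Artin

/-!
# Artin type induction theorem for `K₀(k[F])`, `F` finite (conclusion)
-/

set_option autoImplicit false

open Matrix
open scoped Classical

universe u v w

namespace Pool.Agent.H71.FJ

variable {F : Type v} [Group F] [Fintype F]

theorem rank_identity' {k : Type w} [Field k]
    (s : Finset (Subgroup F)) (ν : Subgroup F → ℤ)
    (h1 : ∀ D ∈ s, ∀ h ∈ D, (orderOf h : k) ≠ 0)
    (h2 : ∀ h : F, (orderOf h : k) ≠ 0 → ∑ D ∈ s.filter (fun D => h ∈ D), ν D = 1)
    (x : K0 (MonoidAlgebra k F)) :
    (Nat.card F : ℤ) * K0.rk (K0.map (aug k F).toRingHom x) =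
      ∑ D ∈ s, ν D * Nat.card D * K0.rk (K0.push (permR k (F ⧸ D)) x) := by
  let K := AlgebraicClosure k
  obtain ⟨L⟩ := exists_liftSys K
  have hcast : ∀ n : ℕ, (n : K) ≠ 0 ↔ (n : k) ≠ 0 := by
    intro n
    rw [← map_natCast (algebraMap k K) n, ne_eq, ne_eq,
      map_eq_zero_iff _ (algebraMap k K).injective]
  have key := rank_identity L s ν (fun D hD h hh => (hcast _).2 (h1 D hD h hh))
    (fun h hh => h2 h ((hcast _).1 hh)) (K0.map (MonoidAlgebra.mapRingHom F (algebraMap k K)) x)
  have e1 : K0.rk (K0.map (aug K F).toRingHom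
      (K0.map (MonoidAlgebra.mapRingHom F (algebraMap k K)) x)) =
      K0.rk (K0.map (aug k F).toRingHom x) := by
    rw [K0.map_map, ← K0.rk_map (algebraMap k K) (K0.map (aug k F).toRingHom x), K0.map_map]
    congr 2
    have : (aug K F).toRingHom.comp (MonoidAlgebra.mapRingHom F (algebraMap k K)) =
        (algebraMap k K).comp (aug k F).toRingHom := by
      apply RingHom.ext
      intro a
      induction a using MonoidAlgebra.induction_linear with
      | zero => simp
      | add a b ha hb => rw [map_add, map_add, ha, hb]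
      | single g r =>
        change aug K F (MonoidAlgebra.mapRingHom F (algebraMap k K) (MonoidAlgebra.single g r)) =
          algebraMap k K (aug k F (MonoidAlgebra.single g r))
        rw [MonoidAlgebra.mapRingHom_single, aug_single, aug_single]
    rw [this]
  have e2 : ∀ D : Subgroup F, K0.rk (K0.push (permR K (F ⧸ D))
      (K0.map (MonoidAlgebra.mapRingHom F (algebraMap k K)) x)) =
      K0.rk (K0.push (permR k (F ⧸ D)) x) := by
    intro D
    rw [K0.push_map, ← K0.rk_map (algebraMap k K) (K0.push (permR k (F ⧸ D)) x), K0.map_push]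
    congr 2
    have : (permR K (F ⧸ D)).comp (MonoidAlgebra.mapRingHom F (algebraMap k K)) =
        (algebraMap k K).mapMatrix.comp (permR k (F ⧸ D)) := by
      apply RingHom.ext
      intro a
      induction a using MonoidAlgebra.induction_linear with
      | zero => simp
      | add a b ha hb => rw [map_add, map_add, ha, hb]
      | single g r =>
        ext p q : 1
        change perm K (F ⧸ D) (MonoidAlgebra.mapRingHom F (algebraMap k K)
          (MonoidAlgebra.single g r)) p q =
          algebraMap k K (perm k (F ⧸ D) (MonoidAlgebra.single g r) p q)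
        rw [MonoidAlgebra.mapRingHom_single, perm_single, perm_single]
        split_ifs <;> simp
    rw [this]
  rw [e1] at key
  simp only [e2] at key
  exact key

namespace K0

theorem push_reindex {R : Type u} [Ring R] {S : Type w} [Ring S] {J J' : Type*} [Fintype J]
    [DecidableEq J] [Fintype J'] [DecidableEq J'] (φ : R →+* Matrix J J S)
    (φ' : R →+* Matrix J' J' S) (σ : J ≃ J') (h : ∀ r a b, φ r a b = φ' r (σ a) (σ b))
    (x : K0 R) : push φ x = push φ' x := by
  have : push φ = push φ' := by
    apply hom_ext
    intro a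
    rw [push_mk, push_mk]
    apply cls_congr
    have h1 : flat φ a.mat = (flat φ' a.mat).submatrix ((Equiv.refl _).prodCongr σ)
        ((Equiv.refl _).prodCongr σ) := by
      ext ⟨i, p⟩ ⟨j, q⟩
      exact h _ _ _
    rw [h1]
    exact matEquiv_submatrix _ (flat_idem _ a.idem) _
  rw [this]

end K0

/-- The twist of a representation. -/
noncomputable def twRep {k : Type w} [Field k] {J : Type*} [Fintype J] [DecidableEq J]
    (ρ : MonoidAlgebra k F →ₐ[k] Matrix J J k) :
    MonoidAlgebra k F →ₐ[k] Matrix J J (MonoidAlgebra k F) :=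
  MonoidAlgebra.lift k _ F
    { toFun := fun h => Matrix.of fun a b =>
        MonoidAlgebra.single h (ρ (MonoidAlgebra.single h 1) a b)
      map_one' := by
        ext a b : 1
        rw [of_apply, Matrix.one_apply, ← MonoidAlgebra.one_def, map_one, Matrix.one_apply]
        split_ifs
        · rw [MonoidAlgebra.one_def]
        · rw [MonoidAlgebra.single_zero]
      map_mul' := by
        intro h h'
        ext a b : 1
        have e1 : MonoidAlgebra.single (h * h') (1 : k) = MonoidAlgebra.single h 1 *
          MonoidAlgebra.single h' 1 := by rw [MonoidAlgebra.single_mul_single, one_mul]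
        rw [Matrix.mul_apply, of_apply, e1, map_mul, Matrix.mul_apply]
        simp only [of_apply, MonoidAlgebra.single_mul_single]
        induction (Finset.univ : Finset J) using Finset.induction_on with
        | empty => simp
        | insert i t hi ih =>
          rw [Finset.sum_insert hi, Finset.sum_insert hi, MonoidAlgebra.single_add, ih] }

omit [Fintype F] in
theorem twRep_single {k : Type w} [Field k] {J : Type*} [Fintype J] [DecidableEq J]
    (ρ : MonoidAlgebra k F →ₐ[k] Matrix J J k) (h : F) (r : k) (a b : J) :
    twRep ρ (MonoidAlgebra.single h r) a b =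
      MonoidAlgebra.single h (r * ρ (MonoidAlgebra.single h 1) a b) := by
  rw [twRep, MonoidAlgebra.lift_single]
  change r • MonoidAlgebra.single h (ρ (MonoidAlgebra.single h 1) a b) = _
  rw [MonoidAlgebra.smul_single, smul_eq_mul]

omit [Fintype F] in
theorem rep_single {k : Type w} [Field k] {J : Type*} [Fintype J] [DecidableEq J]
    (ρ : MonoidAlgebra k F →ₐ[k] Matrix J J k) (h : F) (r : k) (a b : J) :
    ρ (MonoidAlgebra.single h r) a b = r * ρ (MonoidAlgebra.single h 1) a b := by
  have : MonoidAlgebra.single h r = r • MonoidAlgebra.single h (1 : k) := by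
    rw [MonoidAlgebra.smul_single, smul_eq_mul, mul_one]
  rw [this, map_smul]
  rfl

theorem artin_aux {k : Type w} [Field k]
    (s : Finset (Subgroup F)) (ν : Subgroup F → ℤ)
    (h1 : ∀ D ∈ s, ∀ h ∈ D, (orderOf h : k) ≠ 0)
    (h2 : ∀ h : F, (orderOf h : k) ≠ 0 → ∑ D ∈ s.filter (fun D => h ∈ D), ν D = 1)
    (x : K0 (MonoidAlgebra k F)) :
    (Nat.card F : ℤ) • x =
      ∑ D ∈ s, (ν D * Nat.card D) • K0.map (incl k D) (K0.push (lamR k D) x) := by
  rw [← sub_eq_zero]
  apply K0.eq_zero_of_rk_push (k := k)
  intro J _ _ ρ
  rw [map_sub, map_sub, map_zsmul, map_zsmul, map_sum, map_sum]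
  simp only [map_zsmul, ind_res]
  have key := rank_identity' s ν h1 h2 (K0.push (twRep ρ).toRingHom x)
  have e1 : K0.map (aug k F).toRingHom (K0.push (twRep ρ).toRingHom x) =
      K0.push (ρ : MonoidAlgebra k F →+* Matrix J J k) x := by
    rw [K0.map_push]
    have : (aug k F).toRingHom.mapMatrix.comp (twRep ρ).toRingHom =
        (ρ : MonoidAlgebra k F →+* Matrix J J k) := by
      apply RingHom.ext
      intro a
      induction a using MonoidAlgebra.induction_linear with
      | zero => simp
      | add a b ha hb => rw [map_add, map_add, ha, hb]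
      | single g r =>
        ext p q : 1
        change aug k F (twRep ρ (MonoidAlgebra.single g r) p q) = ρ (MonoidAlgebra.single g r) p q
        rw [twRep_single, aug_single]
        exact (rep_single ρ g r p q).symm
    rw [this]
  have e2 : ∀ D : Subgroup F, K0.push (permR k (F ⧸ D)) (K0.push (twRep ρ).toRingHom x) =
      K0.push (ρ : MonoidAlgebra k F →+* Matrix J J k) (K0.push (twR k (F ⧸ D)) x) := by
    intro D
    rw [K0.push_push, K0.push_push]
    refine K0.push_reindex _ _ (Equiv.prodComm _ _) ?_ x
    intro r
    induction r using MonoidAlgebra.induction_linear with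
    | zero =>
      intro a b
      rw [map_zero, map_zero]
      rfl
    | add a b ha hb =>
      intro p q
      rw [map_add, map_add, Matrix.add_apply, Matrix.add_apply, ha, hb]
    | single g r =>
      rintro ⟨a, p⟩ ⟨b, q⟩
      change perm k (F ⧸ D) (twRep ρ (MonoidAlgebra.single g r) a b) p q =
        ρ (tw k (F ⧸ D) (MonoidAlgebra.single g r) p q) a b
      rw [twRep_single, perm_single, tw_single]
      split_ifs
      · rw [← rep_single]
      · rw [map_zero]
        rfl
  rw [e1] at key
  simp only [e2] at key
  simp only [smul_eq_mul]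
  rw [key, sub_self]

theorem orderOf_dvd_ne {k : Type w} [Field k] {G : Type v} [Group G] {g h : G}
    (hg : (orderOf g : k) ≠ 0) (hd : orderOf h ∣ orderOf g) : (orderOf h : k) ≠ 0 := by
  obtain ⟨m, hm⟩ := hd
  intro h0
  apply hg
  rw [hm, Nat.cast_mul, h0, zero_mul]

/-- **Artin induction** for projective modules over `k[F]`, `F` finite: up to the factor `|F|`, every
class is a combination of classes induced from cyclic subgroups of order invertible in `k`. -/
theorem exists_artin (k : Type w) [Field k] (F : Type v) [Group F] [Fintype F] :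
    ∃ (s : Finset (Subgroup F)) (c : Subgroup F → ℤ),
      (∀ D ∈ s, IsCyclic D ∧ ∀ h ∈ D, (orderOf h : k) ≠ 0) ∧
      ∀ x : K0 (MonoidAlgebra k F), (Nat.card F : ℤ) • x =
        ∑ D ∈ s, c D • K0.map (incl k D) (K0.push (lamR k D) x) := by
  let s : Finset (Subgroup F) := Finset.univ.filter
    (fun D => IsCyclic D ∧ ∀ h ∈ D, (orderOf h : k) ≠ 0)
  obtain ⟨ν, hν⟩ := exists_nu s (fun _ => 1)
  refine ⟨s, fun D => ν D * Nat.card D, fun D hD => (Finset.mem_filter.1 hD).2, fun x => ?_⟩
  apply artin_aux s ν
  · intro D hD
    exact (Finset.mem_filter.1 hD).2.2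
  · intro h hh
    have hmem : Subgroup.zpowers h ∈ s := by
      rw [Finset.mem_filter]
      refine ⟨Finset.mem_univ _, inferInstance, ?_⟩
      intro g hg
      exact orderOf_dvd_ne hh (orderOf_dvd_of_mem_zpowers hg)
    rw [← hν _ hmem]
    apply Finset.sum_congr _ (fun _ _ => rfl)
    ext D
    simp only [Finset.mem_filter, Subgroup.zpowers_le]

end Pool.Agent.H71.FJ
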