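import Pool.Agent.H71.FJ.Prim
import Pool.Agent.H71.FJ.Artin2

/-!
# Decomposition into primitive classes
-/

set_option autoImplicit false

open Matrix
open scoped Classical

universe t u v w

namespace Pool.Agent.H71.FJ

/-- Elements with a nonzero multiple in `A`. -/
def Sat {M : Type u} [AddCommGroup M] (A : AddSubgroup M) : AddSubgroup M where
  carrier := {z | ∃ m : ℤ, m ≠ 0 ∧ m • z ∈ A}
  zero_mem' := ⟨1, one_ne_zero, by rw [smul_zero]; exact A.zero_mem⟩
  add_mem' := by
    rintro a b ⟨m, hm, h1⟩ ⟨n, hn, h2⟩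
    refine ⟨m * n, mul_ne_zero hm hn, ?_⟩
    rw [smul_add]
    refine A.add_mem ?_ ?_
    · rw [mul_comm, mul_smul]
      exact A.zsmul_mem h1 n
    · rw [mul_smul]
      exact A.zsmul_mem h2 m
  neg_mem' := by
    rintro a ⟨m, hm, h1⟩
    exact ⟨m, hm, by rw [smul_neg]; exact A.neg_mem h1⟩

theorem Sat_of_smul {M : Type u} [AddCommGroup M] {A : AddSubgroup M} {m : ℤ} (hm : m ≠ 0) {z : M}
    (h : m • z ∈ Sat A) : z ∈ Sat A := by
  obtain ⟨n, hn, h⟩ := h
  exact ⟨n * m, mul_ne_zero hn hm, by rwa [mul_smul]⟩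

theorem mem_Sat {M : Type u} [AddCommGroup M] {A : AddSubgroup M} {z : M} (h : z ∈ A) :
    z ∈ Sat A := ⟨1, one_ne_zero, by rwa [one_smul]⟩

section TTw

variable {B : Type u} [CommRing B] {D : Type w} [Group D] [Fintype D]

theorem fixN_comm (E : Subgroup D) (f : D → B) (hf : ∀ x y, f (x * y) = f (y * x)) (x y : D) :
    (fixN E (x * y) : B) * f (x * y) = fixN E (y * x) * f (y * x) := by
  rw [perm_comm E x y, hf]

theorem T_tw (E : Subgroup D) (f : D → B) (hf : ∀ x y, f (x * y) = f (y * x))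
    (x : K0 (MonoidAlgebra B D)) :
    T f hf (K0.push (twR B (D ⧸ E)) x) =
      T (fun h => (fixN E h : B) * f h) (fixN_comm E f hf) x := by
  rw [T, K0.tr_push]
  refine K0.tr_congr _ _ ?_ x
  ext h r
  simp only [AddMonoidHom.comp_apply, MonoidAlgebra.singleAddHom_apply]
  rw [clsFun_single]
  change clsFun f (trace (tw B (D ⧸ E) (MonoidAlgebra.single h r))) = _
  simp only [trace, diag, tw_single]
  rw [← Finset.sum_filter, Finset.sum_const, map_nsmul, clsFun_single, nsmul_eq_mul, fixN]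
  ring

theorem fixN_cyc [IsCyclic D] (E : Subgroup D) (c : D) :
    Nat.card E * fixN E c = if c ∈ E then Nat.card D else 0 := by
  rw [card_mul_fixN]
  have : ∀ y : D, y⁻¹ * c * y = c := by
    intro y
    rw [cyc_comm y⁻¹ c, mul_assoc, inv_mul_cancel, mul_one]
  simp only [this]
  split_ifs
  · rw [Finset.sum_const, Finset.card_univ, smul_eq_mul, mul_one, Nat.card_eq_fintype_card]
  · rw [Finset.sum_const_zero]

end TTw

section

variable {k : Type u} [Field k] {K : Type t} [Field K] (L : LiftSys K) (i : k →+* K)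

theorem LT_tw {D : Type w} [Group D] [Fintype D] [IsCyclic D] (n : ℕ) (E : Subgroup D) (c : D)
    (x : K0 (MonoidAlgebra k D)) :
    LT L n i (dlt (L.B n) c) (dlt_comm _ c) (K0.push (twR k (D ⧸ E)) x) =
      (fixN E c : L.B n) * LT L n i (dlt (L.B n) c) (dlt_comm _ c) x := by
  simp only [LT, AddMonoidHom.comp_apply]
  rw [liftK_tw, T_tw]
  have h1 : ∀ h : D, (fixN E h : L.B n) * dlt (L.B n) c h = (fixN E c : L.B n) * dlt (L.B n) c h := by
    intro h
    by_cases hh : h = c
    · rw [hh]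
    · rw [dlt_ne _ hh, mul_zero, mul_zero]
  rw [T_congr _ (fun x y => by rw [dlt_comm _ c x y]) h1,
    T_mul _ _ (dlt_comm _ c)]

theorem exists_prim (D : Type w) [Group D] [Fintype D] [IsCyclic D] :
    ∃ κ : Subgroup D → ℤ, ∀ x : K0 (MonoidAlgebra k D),
      IsPrim L i ((Nat.card D : ℤ) • x +
        ∑ E ∈ (Finset.univ : Finset (Subgroup D)).erase ⊤,
          (κ E * Nat.card E) • K0.push (twR k (D ⧸ E)) x) := by
  obtain ⟨κ, hκ⟩ := exists_nu ((Finset.univ : Finset (Subgroup D)).erase ⊤) (fun _ => -1)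
  refine ⟨κ, fun x n c hc => ?_⟩
  have h0 := hκ (Subgroup.zpowers c) (Finset.mem_erase.2 ⟨hc, Finset.mem_univ _⟩)
  simp only [Subgroup.zpowers_le] at h0
  rw [map_add, map_zsmul, map_sum]
  simp only [map_zsmul, LT_tw]
  have h1 : ∀ E : Subgroup D, (κ E * (Nat.card E : ℤ)) • ((fixN E c : L.B n) *
      LT L n i (dlt (L.B n) c) (dlt_comm _ c) x) =
      ((if c ∈ E then κ E else 0 : ℤ) * (Nat.card D : ℤ)) •
        LT L n i (dlt (L.B n) c) (dlt_comm _ c) x := by
    intro E
    have h2 := fixN_cyc E c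
    have h3 : ((fixN E c : L.B n) * LT L n i (dlt (L.B n) c) (dlt_comm _ c) x) =
      (fixN E c : ℤ) • LT L n i (dlt (L.B n) c) (dlt_comm _ c) x := by
      rw [zsmul_eq_mul, Int.cast_natCast]
    rw [h3, smul_smul]
    congr 1
    rw [mul_assoc, ← Nat.cast_mul, h2]
    split_ifs <;> simp
  rw [Finset.sum_congr rfl (fun E _ => h1 E), ← Finset.sum_smul, ← Finset.sum_mul,
    ← Finset.sum_filter, h0, ← add_smul]
  simp

/-- The classes in the colimit represented by primitive classes of finite cyclic subgroups of order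
invertible in `k`. -/
def PrimSet (G : Type v) [Group G] : Set (ColimK0 k G) :=
  {z | ∃ (D : FinSub G) (_ : IsCyclic D.1), (∀ h : D.1, (orderOf h : k) ≠ 0) ∧
    ∃ y : K0 (MonoidAlgebra k D.1), IsPrim L i y ∧ z = cl D y}

variable {G : Type v} [Group G]

theorem clh_prim {H : Type v} [Group H] [Finite H] [IsCyclic H]
    (hH : ∀ h : H, (orderOf h : k) ≠ 0) (ι : H →* G) (hι : Function.Injective ι)
    (y : K0 (MonoidAlgebra k H)) (hy : IsPrim L i y) : clh ι y ∈ PrimSet L i G := by
  let e : H ≃* (rangeSub ι).1 := MonoidHom.ofInjective hι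
  have he : e.toMonoidHom = toRange ι := rfl
  have hcyc : IsCyclic (rangeSub ι).1 := isCyclic_of_surjective e e.surjective
  refine ⟨rangeSub ι, hcyc, ?_, K0.map (MonoidAlgebra.mapDomainRingHom k (toRange ι)) y, ?_, rfl⟩
  · intro h
    obtain ⟨a, rfl⟩ := e.surjective h
    rw [MulEquiv.orderOf_eq]
    exact hH a
  · rw [← he]
    exact isPrim_map L i e hy

theorem prim_decomp (N : ℕ) : ∀ (H : Type v) [Group H] [Finite H] [IsCyclic H],
    Nat.card H = N → (∀ h : H, (orderOf h : k) ≠ 0) → ∀ ι : H →* G, Function.Injective ι →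
    ∀ x : K0 (MonoidAlgebra k H), clh ι x ∈ Sat (AddSubgroup.closure (PrimSet L i G)) := by
  induction N using Nat.strong_induction_on with
  | _ N ih =>
    intro H _ _ _ hN hH ι hι x
    have : Fintype H := Fintype.ofFinite H
    obtain ⟨κ, hκ⟩ := exists_prim L i H
    have h1 := clh_prim L i hH ι hι _ (hκ x)
    have h2 : ∀ E ∈ (Finset.univ : Finset (Subgroup H)).erase ⊤,
        clh ι (K0.push (twR k (H ⧸ E)) x) ∈ Sat (AddSubgroup.closure (PrimSet L i G)) := by
      intro E hE
      have hE' : E ≠ ⊤ := (Finset.mem_erase.1 hE).1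
      rw [← ind_res, clh_map (ι.comp E.subtype) ι E.subtype 1 (by intro a; simp)]
      refine ih (Nat.card E) ?_ E rfl ?_ _ ?_ _
      · rw [← hN]
        refine lt_of_le_of_ne (Nat.le_of_dvd Nat.card_pos (Subgroup.card_subgroup_dvd_card E)) ?_
        intro h
        exact hE' (Subgroup.eq_top_of_card_eq E h)
      · intro h
        rw [← Subgroup.orderOf_coe]
        exact hH _
      · exact hι.comp E.subtype_injective
    have hc : ((Nat.card H : ℕ) : ℤ) ≠ 0 := by exact_mod_cast Nat.card_pos.ne'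
    refine Sat_of_smul hc ?_
    have h3 : (Nat.card H : ℤ) • clh ι x = clh ι ((Nat.card H : ℤ) • x +
        ∑ E ∈ (Finset.univ : Finset (Subgroup H)).erase ⊤,
          (κ E * Nat.card E) • K0.push (twR k (H ⧸ E)) x) -
        ∑ E ∈ (Finset.univ : Finset (Subgroup H)).erase ⊤,
          (κ E * Nat.card E) • clh ι (K0.push (twR k (H ⧸ E)) x) := by
      simp only [← clhHom_apply]
      rw [map_add, map_zsmul, map_sum]
      simp only [map_zsmul]
      abel
    rw [h3]
    refine AddSubgroup.sub_mem _ (mem_Sat (AddSubgroup.subset_closure h1)) ?_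
    exact AddSubgroup.sum_mem _ fun E hE => AddSubgroup.zsmul_mem _ (h2 E hE) _

/-- Every class has a nonzero multiple which is a sum of primitive classes. -/
theorem mem_sat (z : ColimK0 k G) : z ∈ Sat (AddSubgroup.closure (PrimSet L i G)) := by
  induction z using colim_induction with
  | h0 => exact AddSubgroup.zero_mem _
  | h2 a b ha hb => exact AddSubgroup.add_mem _ ha hb
  | h1 F x =>
    have := F.2
    have : Fintype F.1 := Fintype.ofFinite F.1
    obtain ⟨s, c, h1, h2⟩ := exists_artin k F.1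
    have hc : ((Nat.card F.1 : ℕ) : ℤ) ≠ 0 := by exact_mod_cast Nat.card_pos.ne'
    refine Sat_of_smul hc ?_
    rw [← clh_subtype, ← clhHom_apply, ← map_zsmul, h2, map_sum]
    refine AddSubgroup.sum_mem _ fun D hD => ?_
    rw [map_zsmul]
    refine AddSubgroup.zsmul_mem _ ?_ _
    rw [clhHom_apply, clh_map (F.1.subtype.comp D.subtype) F.1.subtype D.subtype 1
      (by intro a; simp)]
    obtain ⟨h3, h4⟩ := h1 D hD
    refine prim_decomp L i (Nat.card D) D rfl ?_ _ ?_ _
    · intro h
      rw [← Subgroup.orderOf_coe]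
      exact h4 _ h.2
    · exact F.1.subtype_injective.comp D.subtype_injective

end

end Pool.Agent.H71.FJ
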