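import Pool.Agent.H71.FJ.Colim
import Pool.Agent.H71.FJ.CycLift

/-!
# Reduction to primitive classes of cyclic groups
-/

set_option autoImplicit false

open Matrix
open scoped Classical

universe u v w

namespace Pool.Agent.H71.FJ

section Cls

variable {k : Type u} [Field k] {G : Type v} [Group G]

/-- The class in the colimit. -/
noncomputable def cl (F : FinSub G) (x : K0 (MonoidAlgebra k F.1)) : ColimK0 k G :=
  QuotientAddGroup.mk (DirectSum.of (fun F : FinSub G => K0 (MonoidAlgebra k F.1)) F x)

/-- The quotient map. -/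
noncomputable def toColim (k : Type u) [Field k] (G : Type v) [Group G] :
    SumK0 k G →+ ColimK0 k G := QuotientAddGroup.mk' (colimRel k G)

theorem cl_eq (F : FinSub G) (x : K0 (MonoidAlgebra k F.1)) :
    cl F x = toColim k G (DirectSum.of (fun F : FinSub G => K0 (MonoidAlgebra k F.1)) F x) := rfl

/-- `cl` as a homomorphism -/
noncomputable def clHom (k : Type u) [Field k] {G : Type v} [Group G] (F : FinSub G) :
    K0 (MonoidAlgebra k F.1) →+ ColimK0 k G :=
  (toColim k G).comp (DirectSum.of (fun F : FinSub G => K0 (MonoidAlgebra k F.1)) F)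

theorem clHom_apply (F : FinSub G) (x : K0 (MonoidAlgebra k F.1)) : clHom k F x = cl F x := rfl

theorem cl_conj (F F' : FinSub G) (g : G) (h : ∀ x ∈ F.1, g * x * g⁻¹ ∈ F'.1)
    (x : K0 (MonoidAlgebra k F.1)) :
    cl F' (K0.map (MonoidAlgebra.mapDomainRingHom k (conjHom g F.1 F'.1 h)) x) = cl F x := by
  rw [← sub_eq_zero, cl_eq, cl_eq, ← map_sub]
  exact (QuotientAddGroup.eq_zero_iff _).2
    (AddSubgroup.subset_closure ⟨F, F', g, h, x, rfl⟩)

theorem assembly_cl (F : FinSub G) (x : K0 (MonoidAlgebra k F.1)) :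
    assembly k G (cl F x) = K0.map (MonoidAlgebra.mapDomainRingHom k F.1.subtype) x := by
  exact DirectSum.toAddMonoid_of (fun F : FinSub G =>
    K0.map (MonoidAlgebra.mapDomainRingHom k F.1.subtype)) F x

theorem colim_induction {P : ColimK0 k G → Prop} (h0 : P 0)
    (h1 : ∀ (F : FinSub G) (x : K0 (MonoidAlgebra k F.1)), P (cl F x))
    (h2 : ∀ a b, P a → P b → P (a + b)) (z : ColimK0 k G) : P z := by
  obtain ⟨y, rfl⟩ : ∃ y, toColim k G y = z := QuotientAddGroup.mk_surjective z
  induction y using DirectSum.induction_on with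
  | zero => rw [map_zero]; exact h0
  | of F x => exact h1 F x
  | add x y hx hy => rw [map_add]; exact h2 _ _ hx hy

/-- the finite subgroup that is the range of a homomorphism -/
def rangeSub {H : Type v} [Group H] [Finite H] (ι : H →* G) : FinSub G :=
  ⟨ι.range, Set.finite_range ι⟩

/-- `ι` as a homomorphism onto its range -/
def toRange {H : Type v} [Group H] [Finite H] (ι : H →* G) : H →* (rangeSub ι).1 :=
  ι.rangeRestrict

theorem coe_toRange {H : Type v} [Group H] [Finite H] (ι : H →* G) (a : H) :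
    ((toRange ι a : (rangeSub ι).1) : G) = ι a := rfl

/-- The class of an element of `K₀(k[H])` for a homomorphism from a finite group `H` to `G`. -/
noncomputable def clh {H : Type v} [Group H] [Finite H] (ι : H →* G) (x : K0 (MonoidAlgebra k H)) :
    ColimK0 k G :=
  cl (rangeSub ι) (K0.map (MonoidAlgebra.mapDomainRingHom k (toRange ι)) x)

/-- `clh` as a homomorphism -/
noncomputable def clhHom (k : Type u) [Field k] {G : Type v} [Group G] {H : Type v} [Group H]
    [Finite H] (ι : H →* G) : K0 (MonoidAlgebra k H) →+ ColimK0 k G :=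
  (clHom k (rangeSub ι)).comp (K0.map (MonoidAlgebra.mapDomainRingHom k (toRange ι)))

theorem clhHom_apply {H : Type v} [Group H] [Finite H] (ι : H →* G) (x : K0 (MonoidAlgebra k H)) :
    clhHom k ι x = clh ι x := rfl

theorem clh_map {H H' : Type v} [Group H] [Finite H] [Group H'] [Finite H'] (ι : H →* G)
    (ι' : H' →* G) (φ : H →* H') (g : G) (h : ∀ a, ι' (φ a) = g * ι a * g⁻¹)
    (x : K0 (MonoidAlgebra k H)) :
    clh ι' (K0.map (MonoidAlgebra.mapDomainRingHom k φ) x) = clh ι x := by
  have hr : ∀ y ∈ (rangeSub ι).1, g * y * g⁻¹ ∈ (rangeSub ι').1 := by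
    rintro y ⟨a, rfl⟩
    exact ⟨φ a, h a⟩
  have h1 := cl_conj (rangeSub ι) (rangeSub ι') g hr
    (K0.map (MonoidAlgebra.mapDomainRingHom k (toRange ι)) x)
  refine Eq.trans ?_ h1
  have h2 : (toRange ι').comp φ =
      (conjHom g (rangeSub ι).1 (rangeSub ι').1 hr).comp (toRange ι) := by
    apply MonoidHom.ext
    intro a
    exact Subtype.ext (h a)
  have h3 : K0.map (MonoidAlgebra.mapDomainRingHom k (toRange ι'))
      (K0.map (MonoidAlgebra.mapDomainRingHom k φ) x) =
      K0.map (MonoidAlgebra.mapDomainRingHom k (conjHom g (rangeSub ι).1 (rangeSub ι').1 hr))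
        (K0.map (MonoidAlgebra.mapDomainRingHom k (toRange ι)) x) := by
    rw [K0.map_map, K0.map_map, ← MonoidAlgebra.mapDomainRingHom_comp, h2,
      ← MonoidAlgebra.mapDomainRingHom_comp]
  exact congrArg (cl (rangeSub ι')) h3

theorem clh_subtype (F : FinSub G) [Finite F.1] (x : K0 (MonoidAlgebra k F.1)) :
    clh F.1.subtype x = cl F x := by
  have hr : ∀ y ∈ F.1, (1 : G) * y * 1⁻¹ ∈ (rangeSub F.1.subtype).1 := by
    intro y hy
    refine ⟨⟨y, hy⟩, ?_⟩
    rw [one_mul, inv_one, mul_one]
    rfl
  have h2 : toRange F.1.subtype = conjHom 1 F.1 (rangeSub F.1.subtype).1 hr := by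
    apply MonoidHom.ext
    intro a
    apply Subtype.ext
    change (a : G) = 1 * (a : G) * 1⁻¹
    rw [one_mul, inv_one, mul_one]
  have h3 := cl_conj (k := k) F (rangeSub F.1.subtype) 1 hr x
  rw [← h2] at h3
  exact h3

end Cls

section Prim

theorem cyc_comm {D : Type w} [Group D] [IsCyclic D] (a b : D) : a * b = b * a := by
  obtain ⟨g, hg⟩ := IsCyclic.exists_generator (α := D)
  obtain ⟨m, rfl⟩ := Subgroup.mem_zpowers_iff.1 (hg a)
  obtain ⟨n, rfl⟩ := Subgroup.mem_zpowers_iff.1 (hg b)
  rw [← _root_.zpow_add, ← _root_.zpow_add, add_comm]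

theorem dlt_comm {D : Type w} [Group D] [IsCyclic D] (B : Type*) [CommRing B] (c a b : D) :
    dlt B c (a * b) = dlt B c (b * a) := by rw [cyc_comm]

variable {k : Type u} [Field k] {K : Type v} [Field K] (L : LiftSys K) (i : k →+* K)

/-- Classes whose lifted traces vanish at all elements that do not generate the cyclic group. -/
def IsPrim {D : Type w} [Group D] [IsCyclic D] (y : K0 (MonoidAlgebra k D)) : Prop :=
  ∀ (n : ℕ) (c : D), Subgroup.zpowers c ≠ ⊤ → LT L n i (dlt (L.B n) c) (dlt_comm _ c) y = 0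

theorem isPrim_map {D D' : Type w} [Group D] [IsCyclic D] [Group D'] [IsCyclic D'] (φ : D ≃* D')
    {y : K0 (MonoidAlgebra k D)} (hy : IsPrim L i y) :
    IsPrim L i (K0.map (MonoidAlgebra.mapDomainRingHom k φ.toMonoidHom) y) := by
  intro n c hc
  rw [LT_map]
  have h1 : ∀ a : D, dlt (L.B n) c (φ.toMonoidHom a) = dlt (L.B n) (φ.symm c) a := by
    intro a
    by_cases ha : a = φ.symm c
    · subst ha
      have : φ.toMonoidHom (φ.symm c) = c := φ.apply_symm_apply c
      rw [this, dlt_self, dlt_self]
    · rw [dlt_ne _ ha, dlt_ne]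
      intro h
      apply ha
      rw [← h]
      exact (φ.symm_apply_apply a).symm
  rw [LT_congr L n i _ (dlt_comm _ _) h1]
  apply hy
  intro htop
  apply hc
  rw [eq_top_iff]
  intro d _
  have h2 : φ.symm d ∈ Subgroup.zpowers (φ.symm c) := by rw [htop]; trivial
  obtain ⟨m, hm⟩ := Subgroup.mem_zpowers_iff.1 h2
  refine Subgroup.mem_zpowers_iff.2 ⟨m, ?_⟩
  apply φ.symm.injective
  rw [map_zpow, hm]

theorem map_tw {D : Type w} [Group D] {A : Type*} {A' : Type*} [CommRing A] [CommRing A']
    (f : A →+* A') (X : Type*) [Fintype X] [DecidableEq X] [MulAction D X]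
    (z : K0 (MonoidAlgebra A D)) :
    K0.map (MonoidAlgebra.mapRingHom D f) (K0.push (twR A X) z) =
      K0.push (twR A' X) (K0.map (MonoidAlgebra.mapRingHom D f) z) := by
  rw [K0.map_push, K0.push_map]
  have : (MonoidAlgebra.mapRingHom D f).mapMatrix.comp (twR A X) =
      (twR A' X).comp (MonoidAlgebra.mapRingHom D f) := by
    apply RingHom.ext
    intro a
    induction a using MonoidAlgebra.induction_linear with
    | zero => simp
    | add a b ha hb => rw [map_add, map_add, ha, hb]
    | single g r =>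
      ext p q : 1
      change MonoidAlgebra.mapRingHom D f (tw A X (MonoidAlgebra.single g r) p q) =
        tw A' X (MonoidAlgebra.mapRingHom D f (MonoidAlgebra.single g r)) p q
      rw [MonoidAlgebra.mapRingHom_single, tw_single, tw_single]
      split_ifs
      · rw [MonoidAlgebra.mapRingHom_single]
      · rw [map_zero]
  rw [this]

/-- lifting commutes with the twist -/
theorem liftK_tw {D : Type w} [Group D] (n : ℕ) (X : Type*) [Fintype X] [DecidableEq X]
    [MulAction D X] (x : K0 (MonoidAlgebra k D)) :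
    liftK L n i D (K0.push (twR k X) x) = K0.push (twR (L.B n) X) (liftK L n i D x) := by
  apply K0.map_injective (mapRingHom_surj (L.surj n) D) ((L.nil n).monoidAlgebra D)
  rw [map_liftK, map_tw, map_tw, map_liftK]

end Prim

end Pool.Agent.H71.FJ
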