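import Pool.Agent.H71.FJ.Rank

/-!
# Classes in `K₀` of a finite-dimensional algebra are detected by ranks
-/

set_option autoImplicit false

open Matrix

universe u v w

namespace Pool.Agent.H71.FJ

namespace K0

theorem rkNat_eq_of_rk {D : Type u} [DivisionRing D] {ι κ : Type*} [Fintype ι] [DecidableEq ι]
    [Fintype κ] [DecidableEq κ] {e : Matrix ι ι D} {f : Matrix κ κ D} (he : e * e = e)
    (hf : f * f = f) (h : rk (cls e he) = rk (cls f hf)) : MatEquiv e f := by
  obtain ⟨r, hr⟩ := exists_matEquiv_one e he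
  obtain ⟨s, hs⟩ := exists_matEquiv_one f hf
  rw [rk_cls_of_matEquiv he hr, rk_cls_of_matEquiv hf hs] at h
  simp only [Fintype.card_fin, Nat.cast_inj] at h
  subst h
  exact matEquiv_trans he hf hr (matEquiv_symm hs)

theorem eq_zero_of_semisimple {k : Type v} [Field k] {Λ : Type u} [Ring Λ] [Algebra k Λ]
    [Module.Finite k Λ] [IsSemisimpleRing Λ] (x : K0 Λ)
    (h : ∀ (J : Type) [Fintype J] [DecidableEq J] (ρ : Λ →ₐ[k] Matrix J J k),
      rk (push (ρ : Λ →+* Matrix J J k) x) = 0) : x = 0 := by
  obtain ⟨a, b, rfl⟩ := exists_sub x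
  obtain ⟨n, D, d, _, _, _, hd, ⟨e⟩⟩ :=
    IsSemisimpleRing.exists_algEquiv_pi_matrix_divisionRing_finite k Λ
  -- the projections
  let π : ∀ i, Λ →ₐ[k] Matrix (Fin (d i)) (Fin (d i)) (D i) := fun i =>
    (Pi.evalAlgHom k (fun i => Matrix (Fin (d i)) (Fin (d i)) (D i)) i).comp e.toAlgHom
  have hπ : ∀ i r, π i r = e r i := fun i r => rfl
  have key : ∀ i, MatEquiv (flat (π i : Λ →+* Matrix (Fin (d i)) (Fin (d i)) (D i)) a.mat)
      (flat (π i : Λ →+* Matrix (Fin (d i)) (Fin (d i)) (D i)) b.mat) := by
    intro i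
    apply rkNat_eq_of_rk (flat_idem _ a.idem) (flat_idem _ b.idem)
    rw [← push_mk, ← push_mk, ← sub_eq_zero, ← map_sub, ← map_sub]
    let bs := Module.finBasis k (D i)
    let χ : D i →ₐ[k] Matrix (Fin (Module.finrank k (D i))) (Fin (Module.finrank k (D i))) k :=
      Algebra.leftMulMatrix bs
    let ρ : Λ →ₐ[k] Matrix (Fin (d i) × Fin (Module.finrank k (D i)))
        (Fin (d i) × Fin (Module.finrank k (D i))) k :=
      { flatComp (χ : D i →+* _) (π i : Λ →+* _) with
        commutes' := by
          intro r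
          have h1 : π i (algebraMap k Λ r) = algebraMap k _ r := (π i).commutes r
          ext ⟨p, s⟩ ⟨q, t⟩
          change χ ((π i (algebraMap k Λ r)) p q) s t = _
          rw [h1]
          simp only [Matrix.algebraMap_matrix_apply, Prod.mk.injEq]
          by_cases hpq : p = q
          · subst hpq
            simp [Matrix.algebraMap_matrix_apply]
          · simp [hpq] }
    have h1 := h (Fin (d i) × Fin (Module.finrank k (D i))) ρ
    have h2 : (ρ : Λ →+* Matrix (Fin (d i) × Fin (Module.finrank k (D i)))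
        (Fin (d i) × Fin (Module.finrank k (D i))) k) =
        flatComp (χ : D i →+* _) (π i : Λ →+* _) := rfl
    rw [h2, ← push_push, rk_push] at h1
    have h3 : (Fintype.card (Fin (Module.finrank k (D i))) : ℤ) ≠ 0 := by
      rw [Fintype.card_fin]
      have : 0 < Module.finrank k (D i) := Module.finrank_pos
      exact_mod_cast this.ne'
    exact (mul_eq_zero.1 h1).resolve_right h3
  choose X Y hXY hYX using key
  have hab : MatEquiv a.mat b.mat := by
    refine ⟨Matrix.of fun s t => e.symm (fun i => Matrix.of fun p q => X i (s, p) (t, q)),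
      Matrix.of fun s t => e.symm (fun i => Matrix.of fun p q => Y i (s, p) (t, q)), ?_, ?_⟩
    · ext s t
      apply e.injective
      funext i
      ext p q
      rw [Matrix.mul_apply, map_sum]
      have h1 := congrFun (congrFun (hXY i) (s, p)) (t, q)
      have h2 : flat (π i : Λ →+* Matrix (Fin (d i)) (Fin (d i)) (D i)) a.mat (s, p) (t, q) =
        e (a.mat s t) i p q := rfl
      rw [h2] at h1
      rw [← h1, Matrix.mul_apply, Fintype.sum_prod_type]
      simp only [of_apply, map_mul, AlgEquiv.apply_symm_apply, Finset.sum_apply, Pi.mul_apply,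
        Matrix.sum_apply, Matrix.mul_apply]
    · ext s t
      apply e.injective
      funext i
      ext p q
      rw [Matrix.mul_apply, map_sum]
      have h1 := congrFun (congrFun (hYX i) (s, p)) (t, q)
      have h2 : flat (π i : Λ →+* Matrix (Fin (d i)) (Fin (d i)) (D i)) b.mat (s, p) (t, q) =
        e (b.mat s t) i p q := rfl
      rw [h2] at h1
      rw [← h1, Matrix.mul_apply, Fintype.sum_prod_type]
      simp only [of_apply, map_mul, AlgEquiv.apply_symm_apply, Finset.sum_apply, Pi.mul_apply,
        Matrix.sum_apply, Matrix.mul_apply]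
  rw [mk_eq_of_equiv hab, sub_self]

/-- Classes in `K₀` of a finite-dimensional algebra are detected by the ranks of their images
under all finite-dimensional representations. -/
theorem eq_zero_of_rk_push {k : Type v} [Field k] {Λ : Type u} [Ring Λ] [Algebra k Λ]
    [Module.Finite k Λ] (x : K0 Λ)
    (h : ∀ (J : Type) [Fintype J] [DecidableEq J] (ρ : Λ →ₐ[k] Matrix J J k),
      rk (push (ρ : Λ →+* Matrix J J k) x) = 0) : x = 0 := by
  have : IsArtinianRing Λ := IsArtinianRing.of_finite k Λ
  let q : Λ →ₐ[k] Λ ⧸ Ring.jacobson Λ := Ideal.Quotient.mkₐ k (Ring.jacobson Λ)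
  have hq : Function.Surjective (q : Λ →+* Λ ⧸ Ring.jacobson Λ) := Ideal.Quotient.mk_surjective
  have hnil : NilKer (q : Λ →+* Λ ⧸ Ring.jacobson Λ) := by
    obtain ⟨N, hN⟩ := IsSemiprimaryRing.isNilpotent (R := Λ)
    refine ⟨N, fun j => ((Ring.jacobson Λ) ^ j).toAddSubgroup, ?_, ?_, ?_⟩
    · intro x
      change x ∈ (Ring.jacobson Λ) ^ 0
      rw [Submodule.pow_zero, Ideal.one_eq_top]
      trivial
    · intro x hx
      change x ∈ (Ring.jacobson Λ) ^ N at hx
      rw [hN] at hx
      simpa using hx
    · intro j x y hx hy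
      have hx' : x ∈ Ring.jacobson Λ := Ideal.Quotient.eq_zero_iff_mem.1 hx
      have : x * y ∈ Ring.jacobson Λ * (Ring.jacobson Λ) ^ j := Ideal.mul_mem_mul hx' hy
      rw [← Ideal.IsTwoSided.pow_succ] at this
      exact this
  apply map_injective hq hnil
  rw [map_zero]
  have : Module.Finite k (Λ ⧸ Ring.jacobson Λ) := Module.Finite.of_surjective q.toLinearMap hq
  apply eq_zero_of_semisimple (k := k)
  intro J _ _ ρ
  rw [push_map]
  exact h J (ρ.comp q)

end K0

end Pool.Agent.H71.FJ
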