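import Pool.Agent.H71.FJ.Nil

/-!
# Trace functionals on group rings; vanishing of traces at `p`-singular elements (abelian case)
-/

set_option autoImplicit false

open Matrix

universe u v w

namespace Pool.Agent.H71.FJ

section ClsFun

variable {B : Type u} [CommRing B] {G : Type v} [Group G]

/-- The functional `∑ a_g g ↦ ∑ a_g f(g)` on a group ring. -/
noncomputable def clsFun (f : G → B) : MonoidAlgebra B G →+ B where
  toFun a := a.coeff.sum fun g b => b * f g
  map_zero' := by simp
  map_add' x y := by
    classical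
    rw [MonoidAlgebra.coeff_add, Finsupp.sum_add_index'] <;> simp [add_mul]

theorem clsFun_single (f : G → B) (g : G) (b : B) :
    clsFun f (MonoidAlgebra.single g b) = b * f g := by
  change (MonoidAlgebra.single g b).coeff.sum (fun g b => b * f g) = _
  rw [MonoidAlgebra.coeff_single, Finsupp.sum_single_index (by simp)]

theorem clsFun_comm (f : G → B) (hf : ∀ x y, f (x * y) = f (y * x)) (x y : MonoidAlgebra B G) :
    clsFun f (x * y) = clsFun f (y * x) := by
  induction x using MonoidAlgebra.induction_linear with
  | zero => rw [zero_mul, mul_zero]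
  | add x x' hx hx' => rw [add_mul, mul_add, map_add, map_add, hx, hx']
  | single g b =>
    induction y using MonoidAlgebra.induction_linear with
    | zero => rw [zero_mul, mul_zero]
    | add y y' hy hy' => rw [add_mul, mul_add, map_add, map_add, hy, hy']
    | single h c =>
      rw [MonoidAlgebra.single_mul_single, MonoidAlgebra.single_mul_single, clsFun_single,
        clsFun_single, hf, mul_comm b c]

theorem clsFun_add (f g : G → B) (x : MonoidAlgebra B G) :
    clsFun (fun a => f a + g a) x = clsFun f x + clsFun g x := by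
  induction x using MonoidAlgebra.induction_linear with
  | zero => simp
  | add x x' hx hx' => rw [map_add, map_add, map_add, hx, hx']; ring
  | single h c => rw [clsFun_single, clsFun_single, clsFun_single]; ring

theorem clsFun_mul (m : B) (f : G → B) (x : MonoidAlgebra B G) :
    clsFun (fun a => m * f a) x = m * clsFun f x := by
  induction x using MonoidAlgebra.induction_linear with
  | zero => simp
  | add x x' hx hx' => rw [map_add, map_add, hx, hx']; ring
  | single h c => rw [clsFun_single, clsFun_single]; ring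

/-- The functional on `K₀` of a group ring defined by a class function. -/
noncomputable def T (f : G → B) (hf : ∀ x y, f (x * y) = f (y * x)) :
    K0 (MonoidAlgebra B G) →+ B := K0.tr (clsFun f) (clsFun_comm f hf)

theorem T_congr {f g : G → B} (hf : ∀ x y, f (x * y) = f (y * x))
    (hg : ∀ x y, g (x * y) = g (y * x)) (h : ∀ a, f a = g a) (x : K0 (MonoidAlgebra B G)) :
    T f hf x = T g hg x := by
  have : f = g := funext h
  subst this
  rfl

theorem T_sum {ι : Type*} (s : Finset ι) (m : ι → B) (f : ι → G → B)
    (hf : ∀ i x y, f i (x * y) = f i (y * x))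
    (hs : ∀ x y, (∑ i ∈ s, m i * f i (x * y)) = ∑ i ∈ s, m i * f i (y * x))
    (x : K0 (MonoidAlgebra B G)) :
    T (fun a => ∑ i ∈ s, m i * f i a) hs x = ∑ i ∈ s, m i * T (f i) (hf i) x := by
  have key : T (fun a => ∑ i ∈ s, m i * f i a) hs =
      ∑ i ∈ s, (AddMonoidHom.mulLeft (m i)).comp (T (f i) (hf i)) := by
    apply K0.hom_ext
    intro a
    rw [AddMonoidHom.finsetSum_apply]
    simp only [AddMonoidHom.comp_apply, AddMonoidHom.coe_mulLeft, T, K0.tr_mk]
    induction trace a.mat using MonoidAlgebra.induction_linear with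
    | zero => simp
    | add x x' hx hx' =>
      rw [map_add, hx, hx', ← Finset.sum_add_distrib]
      exact Finset.sum_congr rfl (fun i _ => by rw [map_add, mul_add])
    | single h c =>
      rw [clsFun_single, Finset.mul_sum]
      exact Finset.sum_congr rfl (fun i _ => by rw [clsFun_single]; ring)
  rw [key, AddMonoidHom.finsetSum_apply]
  rfl

theorem T_zero (x : K0 (MonoidAlgebra B G)) (h : ∀ x y : G, (fun _ => (0 : B)) (x * y) =
    (fun _ => (0 : B)) (y * x)) : T (fun _ => 0) h x = 0 := by
  have : T (fun _ : G => (0 : B)) h = 0 := by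
    apply K0.hom_ext
    intro a
    simp only [T, K0.tr_mk, AddMonoidHom.zero_apply]
    induction trace a.mat using MonoidAlgebra.induction_linear with
    | zero => simp
    | add x x' hx hx' => rw [map_add, hx, hx', add_zero]
    | single h c => rw [clsFun_single, mul_zero]
  rw [this]
  rfl

/-- compatibility with homomorphisms of groups -/
theorem T_mapDomain {H : Type w} [Group H] (ι : H →* G) (f : G → B)
    (hf : ∀ x y, f (x * y) = f (y * x)) (x : K0 (MonoidAlgebra B H)) :
    T f hf (K0.map (MonoidAlgebra.mapDomainRingHom B ι) x) =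
      T (fun h => f (ι h)) (fun x y => by simp only [map_mul]; exact hf _ _) x := by
  rw [T, K0.tr_map]
  refine K0.tr_congr _ _ ?_ x
  ext a b
  simp [clsFun_single]

end ClsFun

open Classical in
/-- the indicator function of the element `c` -/
noncomputable def dlt {G : Type v} (B : Type u) [CommRing B] (c g : G) : B :=
  if g = c then 1 else 0

theorem dlt_self {G : Type v} (B : Type u) [CommRing B] (c : G) : dlt B c c = 1 := if_pos rfl

theorem dlt_ne {G : Type v} (B : Type u) [CommRing B] {c g : G} (h : g ≠ c) : dlt B c g = 0 :=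
  if_neg h

section Abelian

variable {B : Type u} [CommRing B] {K : Type v} [Field K] {C : Type w} [CommGroup C]

theorem charP_monoidAlgebra (p : ℕ) [CharP K p] : CharP (MonoidAlgebra K C) p :=
  charP_of_injective_algebraMap (R := K) (FaithfulSMul.algebraMap_injective K (MonoidAlgebra K C)) p

/-- a differing pair of commuting group elements whose `q`-th powers agree, `q` a power of `p` -/
theorem single_sub_nilpotent (p : ℕ) [Fact p.Prime] [CharP K p] {φ : B →+* K} (hn : NilKer φ)
    {c d : C} {a : ℕ} (h : c ^ p ^ a = d ^ p ^ a) :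
    IsNilpotent (MonoidAlgebra.single c (1 : B) - MonoidAlgebra.single d 1) := by
  have := charP_monoidAlgebra (K := K) (C := C) p
  have h1 : MonoidAlgebra.mapRingHom C φ
      ((MonoidAlgebra.single c (1 : B) - MonoidAlgebra.single d 1) ^ p ^ a) = 0 := by
    rw [map_pow, map_sub, MonoidAlgebra.mapRingHom_single, MonoidAlgebra.mapRingHom_single,
      map_one, sub_pow_char_pow, MonoidAlgebra.single_pow, MonoidAlgebra.single_pow, h, sub_self]
  have h2 := (hn.monoidAlgebra C).isNilpotent h1
  exact IsNilpotent.of_pow h2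

theorem abelian_nilKer {φ : B →+* K} (hn : NilKer φ) (p : ℕ) [Fact p.Prime] [CharP K p]
    [Finite C] (ψ : C →* C) (a : ℕ) (hψ : ∀ c, c ^ p ^ a = (ψ c) ^ p ^ a) :
    NilKer (MonoidAlgebra.mapDomainRingHom B ψ) := by
  set J : Ideal (MonoidAlgebra B C) := Ideal.span (Set.range fun c : C =>
    MonoidAlgebra.single c (1 : B) - MonoidAlgebra.single (ψ c) 1) with hJ
  have hfg : J.FG := by
    have hfin : (Set.range fun c : C =>
      MonoidAlgebra.single c (1 : B) - MonoidAlgebra.single (ψ c) 1).Finite := Set.finite_range _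
    exact ⟨hfin.toFinset, by rw [hfin.coe_toFinset]⟩
  have hnil : IsNilpotent J := by
    rw [hfg.isNilpotent_iff_le_nilradical, hJ, Ideal.span_le]
    rintro _ ⟨c, rfl⟩
    exact single_sub_nilpotent (K := K) p hn (hψ c)
  have hmem : ∀ x : MonoidAlgebra B C, x - MonoidAlgebra.mapDomainRingHom B ψ x ∈ J := by
    intro x
    induction x using MonoidAlgebra.induction_linear with
    | zero => simp
    | add x y hx hy =>
      rw [map_add]
      have : x + y - (MonoidAlgebra.mapDomainRingHom B ψ x + MonoidAlgebra.mapDomainRingHom B ψ y) =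
        (x - MonoidAlgebra.mapDomainRingHom B ψ x) + (y - MonoidAlgebra.mapDomainRingHom B ψ y) := by
        ring
      rw [this]
      exact J.add_mem hx hy
    | single c b =>
      have : MonoidAlgebra.single c b - MonoidAlgebra.mapDomainRingHom B ψ
          (MonoidAlgebra.single c b) = MonoidAlgebra.single 1 b *
          (MonoidAlgebra.single c (1 : B) - MonoidAlgebra.single (ψ c) 1) := by
        rw [mul_sub, MonoidAlgebra.single_mul_single, MonoidAlgebra.single_mul_single]
        simp
      rw [this]
      exact J.mul_mem_left _ (Ideal.subset_span ⟨c, rfl⟩)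
  obtain ⟨N, hN⟩ := hnil
  refine ⟨N, fun j => (J ^ j).toAddSubgroup, ?_, ?_, ?_⟩
  · intro x
    change x ∈ J ^ 0
    simp
  · intro x hx
    change x ∈ J ^ N at hx
    rw [hN] at hx
    simpa using hx
  · intro j x y hx hy
    change y ∈ J ^ j at hy
    change x * y ∈ J ^ (j + 1)
    have hxJ : x ∈ J := by
      have := hmem x
      rwa [hx, sub_zero] at this
    rw [pow_succ']
    exact Ideal.mul_mem_mul hxJ hy

/-- If the order of `c` vanishes in the field `K`, `c` an element of the finite abelian group `C`,
and `B → K` has nilpotent kernel, then the coefficient at `c` of the trace of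
an idempotent matrix over `B[C]` vanishes. -/
theorem abelian_vanish [Finite C] {φ : B →+* K} (hn : NilKer φ) (c : C)
    (hc : (orderOf c : K) = 0) (y : K0 (MonoidAlgebra B C))
    (hf : ∀ x y : C, dlt B c (x * y) = dlt B c (y * x)) :
    T (dlt B c) hf y = 0 := by
  obtain ⟨p, hp⟩ := CharP.exists K
  have hpos : 0 < orderOf c := orderOf_pos c
  have hp0 : p ≠ 0 := by
    rintro rfl
    have : CharZero K := CharP.charP_to_charZero K
    exact hpos.ne' (by exact_mod_cast hc)
  have : Fact p.Prime := ⟨(CharP.char_is_prime_or_zero K p).resolve_right hp0⟩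
  have hprime : p.Prime := Fact.out
  have hpc : p ∣ orderOf c := (CharP.cast_eq_zero_iff K p _).1 hc
  obtain ⟨a, m, hm, hN⟩ := Nat.exists_eq_pow_mul_and_not_dvd (Nat.card_pos (α := C)).ne' p
    hprime.one_lt.ne'
  have hcop : Nat.Coprime (p ^ a) m :=
    Nat.Coprime.pow_left a ((Nat.Prime.coprime_iff_not_dvd hprime).2 hm)
  obtain ⟨s, hs1, hs2⟩ := Nat.chineseRemainder hcop 0 1
  have hpow : ∀ g : C, g ^ (Nat.card C) = 1 := fun g => pow_card_eq_one'
  have hmod : ∀ (g : C) {i j : ℕ}, i ≡ j [MOD Nat.card C] → g ^ i = g ^ j := by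
    intro g i j hij
    rw [pow_eq_pow_iff_modEq]
    exact hij.of_dvd (orderOf_dvd_natCard g)
  let ψ : C →* C := powMonoidHom s
  have hψψ : ψ.comp ψ = ψ := by
    ext g
    simp only [ψ, MonoidHom.comp_apply, powMonoidHom_apply]
    rw [← pow_mul]
    apply hmod
    rw [hN]
    refine (Nat.modEq_and_modEq_iff_modEq_mul hcop).1 ⟨?_, ?_⟩
    · calc s * s ≡ 0 * 0 [MOD p ^ a] := hs1.mul hs1
        _ = 0 := rfl
        _ ≡ s [MOD p ^ a] := hs1.symm
    · calc s * s ≡ 1 * s [MOD m] := hs2.mul_right s
        _ = s := one_mul s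
  have hψa : ∀ g, g ^ p ^ a = (ψ g) ^ p ^ a := by
    intro g
    simp only [ψ, powMonoidHom_apply]
    rw [← pow_mul]
    apply hmod
    rw [hN]
    refine (Nat.modEq_and_modEq_iff_modEq_mul hcop).1 ⟨?_, ?_⟩
    · calc p ^ a ≡ 0 [MOD p ^ a] := (Nat.modEq_zero_iff_dvd.2 dvd_rfl)
        _ ≡ s * p ^ a [MOD p ^ a] := (Nat.modEq_zero_iff_dvd.2 (Dvd.intro_left s rfl)).symm
    · calc p ^ a = 1 * p ^ a := (one_mul _).symm
        _ ≡ s * p ^ a [MOD m] := (hs2.symm).mul_right _
  have hnk := abelian_nilKer (K := K) hn p ψ a hψa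
  let θ := MonoidAlgebra.mapDomainRingHom B ψ
  have hq : K0.map θ.rangeRestrict (K0.map θ y) = K0.map θ.rangeRestrict y := by
    rw [K0.map_map]
    have heq : θ.rangeRestrict.comp θ = θ.rangeRestrict := by
      refine RingHom.ext fun x => Subtype.ext ?_
      change θ (θ x) = θ x
      have : (θ.comp θ) x = θ x := by
        rw [← MonoidAlgebra.mapDomainRingHom_comp, hψψ]
      exact this
    rw [heq]
  have hnk' : NilKer θ.rangeRestrict := hnk.mono (fun x hx => by
    have := congrArg Subtype.val hx
    exact this)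
  have hθ : K0.map θ y = y := K0.map_injective θ.rangeRestrict_surjective hnk' hq
  rw [← hθ, T_mapDomain]
  have hzero : ∀ g, dlt B c (ψ g) = 0 := by
    intro g
    apply dlt_ne
    intro hg
    have h1 : orderOf c ∣ m := by
      apply orderOf_dvd_of_pow_eq_one
      rw [← hg]
      simp only [ψ, powMonoidHom_apply]
      rw [← pow_mul]
      have h2 : s * m ≡ 0 [MOD Nat.card C] := by
        rw [hN]
        refine (Nat.modEq_and_modEq_iff_modEq_mul hcop).1 ⟨?_, ?_⟩
        · calc s * m ≡ 0 * m [MOD p ^ a] := hs1.mul_right m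
            _ = 0 := zero_mul m
        · exact (Nat.modEq_zero_iff_dvd.2 (Dvd.intro_left s rfl))
      have := hmod g h2
      rwa [pow_zero] at this
    exact hm (hpc.trans h1)
  rw [T_congr _ (fun _ _ => rfl) hzero]
  exact T_zero _ _

end Abelian

end Pool.Agent.H71.FJ
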