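import Pool.Agent.H71.FJ.K0

/-!
# Nilpotent kernels: lifting of idempotent matrices
-/

set_option autoImplicit false

open Matrix

universe u v w

namespace Pool.Agent.H71.FJ

variable {R : Type u} [Ring R] {S : Type v} [Ring S]

/-- A ring homomorphism with nilpotent kernel, witnessed by a filtration. -/
def NilKer (φ : R →+* S) : Prop :=
  ∃ (N : ℕ) (J : ℕ → AddSubgroup R), (∀ x, x ∈ J 0) ∧ (∀ x ∈ J N, x = 0) ∧
    ∀ j x y, φ x = 0 → y ∈ J j → x * y ∈ J (j + 1)

theorem NilKer.isNilpotent {φ : R →+* S} (h : NilKer φ) {x : R} (hx : φ x = 0) :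
    IsNilpotent x := by
  obtain ⟨N, J, h0, hN, hJ⟩ := h
  have key : ∀ j : ℕ, x ^ j ∈ J j := by
    intro j
    induction j with
    | zero => exact h0 _
    | succ j ih =>
      rw [pow_succ']
      exact hJ j x _ hx ih
  exact ⟨N, hN _ (key N)⟩

theorem NilKer.mono {φ : R →+* S} {T : Type w} [Ring T] {ψ : R →+* T} (h : NilKer φ)
    (hle : ∀ x, ψ x = 0 → φ x = 0) : NilKer ψ := by
  obtain ⟨N, J, h0, hN, hJ⟩ := h
  exact ⟨N, J, h0, hN, fun j x y hx hy => hJ j x y (hle x hx) hy⟩

theorem NilKer.matrix {φ : R →+* S} (h : NilKer φ) (ι : Type*) [Fintype ι] [DecidableEq ι] :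
    NilKer (φ.mapMatrix : Matrix ι ι R →+* Matrix ι ι S) := by
  obtain ⟨N, J, h0, hN, hJ⟩ := h
  refine ⟨N, fun j =>
    { carrier := {X | ∀ i k, X i k ∈ J j}
      add_mem' := fun {a b} ha hb i k => (J j).add_mem (ha i k) (hb i k)
      zero_mem' := fun i k => (J j).zero_mem
      neg_mem' := fun {a} ha i k => (J j).neg_mem (ha i k) }, ?_, ?_, ?_⟩
  · intro x i k
    exact h0 _
  · intro x hx
    ext i k
    exact hN _ (hx i k)
  · intro j x y hx hy i k
    rw [Matrix.mul_apply]
    refine AddSubgroup.sum_mem _ (fun l _ => hJ j _ _ ?_ (hy l k))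
    have := congrFun (congrFun hx i) l
    simpa using this

theorem NilKer.monoidAlgebra {φ : R →+* S} (h : NilKer φ) (G : Type*) [Monoid G] :
    NilKer (MonoidAlgebra.mapRingHom G φ) := by
  classical
  obtain ⟨N, J, h0, hN, hJ⟩ := h
  refine ⟨N, fun j =>
    { carrier := {X | ∀ g, X.coeff g ∈ J j}
      add_mem' := fun {a b} ha hb g => by
        rw [MonoidAlgebra.coeff_add]
        exact (J j).add_mem (ha g) (hb g)
      zero_mem' := fun g => by
        rw [MonoidAlgebra.coeff_zero]
        exact (J j).zero_mem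
      neg_mem' := fun {a} ha g => by
        rw [MonoidAlgebra.coeff_neg]
        exact (J j).neg_mem (ha g) }, ?_, ?_, ?_⟩
  · intro x g
    exact h0 _
  · intro x hx
    ext g
    exact hN _ (hx g)
  · intro j x y hx hy g
    rw [MonoidAlgebra.coeff_mul]
    refine AddSubgroup.sum_mem _ (fun a _ => AddSubgroup.sum_mem _ (fun b _ => ?_))
    simp only
    split_ifs
    · refine hJ j _ _ ?_ (hy b)
      have := congrArg (fun z => MonoidAlgebra.coeff z a) hx
      simpa using this
    · exact (J (j + 1)).zero_mem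

/-- Idempotents lift. -/
theorem exists_lift_idem {φ : R →+* S} (hs : Function.Surjective φ) (h : NilKer φ) {ι : Type*}
    [Fintype ι] [DecidableEq ι] (e : Matrix ι ι S) (he : e * e = e) :
    ∃ f : Matrix ι ι R, f * f = f ∧ f.map φ = e := by
  have hsurj : Function.Surjective (φ.mapMatrix : Matrix ι ι R →+* Matrix ι ι S) := by
    intro X
    choose g hg using hs
    exact ⟨X.map g, by ext i j; simp [hg]⟩
  obtain ⟨f, hf1, hf2⟩ := exists_isIdempotentElem_eq_of_ker_isNilpotent
    (φ.mapMatrix : Matrix ι ι R →+* Matrix ι ι S)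
    (fun x hx => (h.matrix ι).isNilpotent (RingHom.mem_ker.1 hx)) e
    (RingHom.mem_range.2 (hsurj e)) he
  exact ⟨f, hf1, hf2⟩

theorem idem_nilpotent {A : Type*} [Ring A] {x : A} (h : x * x = x) (hn : IsNilpotent x) :
    x = 0 := by
  obtain ⟨n, hn⟩ := hn
  have key : ∀ k : ℕ, x ^ (k + 1) = x := by
    intro k
    induction k with
    | zero => simp
    | succ k ih => rw [pow_succ, ih, h]
  rcases n with _ | n
  · rw [pow_zero] at hn
    calc x = x * 1 := (mul_one x).symm
      _ = 0 := by rw [hn, mul_zero]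
  · rw [key] at hn
    exact hn

/-- Lifts of equivalent idempotents are equivalent. -/
theorem matEquiv_of_map {φ : R →+* S} (hs : Function.Surjective φ) (h : NilKer φ) {ι κ : Type*}
    [Fintype ι] [DecidableEq ι] [Fintype κ] [DecidableEq κ] {e : Matrix ι ι R} {f : Matrix κ κ R}
    (he : e * e = e) (hf : f * f = f) (hef : MatEquiv (e.map φ) (f.map φ)) : MatEquiv e f := by
  obtain ⟨xb, yb, h1, h2⟩ := hef
  choose g hg using hs
  obtain ⟨x, hx⟩ : ∃ x : Matrix ι κ R, x = e * (xb.map g) * f := ⟨_, rfl⟩
  obtain ⟨y, hy⟩ : ∃ y : Matrix κ ι R, y = f * (yb.map g) * e := ⟨_, rfl⟩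
  have hxm : x.map φ = xb * yb * xb * (f.map φ) := by
    rw [hx, Matrix.map_mul, Matrix.map_mul]
    have : (xb.map g).map φ = xb := by ext i j; simp [hg]
    rw [this, ← h1]
  have hym : y.map φ = yb * xb * yb * (e.map φ) := by
    rw [hy, Matrix.map_mul, Matrix.map_mul]
    have : (yb.map g).map φ = yb := by ext i j; simp [hg]
    rw [this, ← h2]
  have hee : (xb * yb) * (xb * yb) = xb * yb := by rw [h1]; exact K0.map_idem φ he
  have hff : (yb * xb) * (yb * xb) = yb * xb := by rw [h2]; exact K0.map_idem φ hf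
  have hex : e * x = x := by rw [hx, ← Matrix.mul_assoc, ← Matrix.mul_assoc, he]
  have hxf : x * f = x := by rw [hx, Matrix.mul_assoc, hf]
  have hfy : f * y = y := by rw [hy, ← Matrix.mul_assoc, ← Matrix.mul_assoc, hf]
  have hye : y * e = y := by rw [hy, Matrix.mul_assoc, he]
  have hxy : (x * y).map φ = e.map φ := by
    rw [Matrix.map_mul, hxm, hym, ← h2, ← h1]
    calc xb * yb * xb * (yb * xb) * (yb * xb * yb * (xb * yb))
        = (xb * yb) * (xb * yb) * (xb * yb) * (xb * yb) * (xb * yb) := by
          simp only [Matrix.mul_assoc]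
      _ = xb * yb := by simp only [hee]
  have hyx : (y * x).map φ = f.map φ := by
    rw [Matrix.map_mul, hxm, hym, ← h2, ← h1]
    calc yb * xb * yb * (xb * yb) * (xb * yb * xb * (yb * xb))
        = (yb * xb) * (yb * xb) * (yb * xb) * (yb * xb) * (yb * xb) := by
          simp only [Matrix.mul_assoc]
      _ = yb * xb := by simp only [hff]
  have hn : IsNilpotent (e - x * y) := by
    apply (h.matrix ι).isNilpotent
    rw [map_sub, RingHom.mapMatrix_apply, RingHom.mapMatrix_apply, hxy, sub_self]
  have hu : IsUnit (1 - (e - x * y)) := hn.isUnit_one_sub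
  obtain ⟨u, hu⟩ := hu
  have hue : (u : Matrix ι ι R) * e = x * y := by
    rw [hu, Matrix.sub_mul, Matrix.one_mul, Matrix.sub_mul, he, Matrix.mul_assoc, hye]
    abel
  have heu : e * (u : Matrix ι ι R) = x * y := by
    rw [hu, Matrix.mul_sub, Matrix.mul_one, Matrix.mul_sub, he, ← Matrix.mul_assoc, hex]
    abel
  have hxyv : x * y * ((u⁻¹ : (Matrix ι ι R)ˣ) : Matrix ι ι R) = e := by
    rw [← heu, Matrix.mul_assoc, Units.mul_inv, Matrix.mul_one]
  have hve : ((u⁻¹ : (Matrix ι ι R)ˣ) : Matrix ι ι R) * (x * y) = e := by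
    rw [← hue, ← Matrix.mul_assoc, Units.inv_mul, Matrix.one_mul]
  have hvm : ((u⁻¹ : (Matrix ι ι R)ˣ) : Matrix ι ι R).map φ * (xb * yb) = xb * yb := by
    have := congrArg (fun z : Matrix ι ι R => z.map φ) hve
    simp only [Matrix.map_mul] at this
    rw [← Matrix.map_mul, hxy, ← h1] at this
    exact this
  refine ⟨x, y * ((u⁻¹ : (Matrix ι ι R)ˣ) : Matrix ι ι R), ?_, ?_⟩
  · rw [← Matrix.mul_assoc, hxyv]
  · set v : Matrix ι ι R := ((u⁻¹ : (Matrix ι ι R)ˣ) : Matrix ι ι R) with hv
    obtain ⟨q, hq⟩ : ∃ q : Matrix κ κ R, q = y * v * x := ⟨_, rfl⟩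
    have hqq : q * q = q := by
      calc q * q = y * (v * (x * y)) * v * x := by rw [hq]; simp only [Matrix.mul_assoc]
        _ = q := by rw [hve, hye, hq]
    have hfq : f * q = q := by rw [hq, ← Matrix.mul_assoc, ← Matrix.mul_assoc, hfy]
    have hqf : q * f = q := by rw [hq, Matrix.mul_assoc, hxf]
    have hqm : q.map φ = f.map φ := by
      rw [hq, Matrix.map_mul, Matrix.map_mul, hxm, hym, ← h1, ← h2]
      calc yb * xb * yb * (xb * yb) * v.map φ * (xb * yb * xb * (yb * xb))
          = yb * (xb * yb) * (xb * yb) * (v.map φ * (xb * yb)) * xb * (yb * xb) := by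
            simp only [Matrix.mul_assoc]
        _ = (yb * xb) * (yb * xb) * (yb * xb) * (yb * xb) * (yb * xb) := by
            rw [hvm]
            simp only [Matrix.mul_assoc]
        _ = yb * xb := by simp only [hff]
    have hdiff : f - q = 0 := by
      apply idem_nilpotent
      · rw [Matrix.sub_mul, Matrix.mul_sub, Matrix.mul_sub, hf, hqq, hfq, hqf]
        abel
      · apply (h.matrix κ).isNilpotent
        rw [map_sub, RingHom.mapMatrix_apply, RingHom.mapMatrix_apply, hqm, sub_self]
    rw [← hq]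
    exact (sub_eq_zero.1 hdiff).symm

namespace K0

/-- a lift of an idempotent matrix -/
noncomputable def liftIdem {φ : R →+* S} (hs : Function.Surjective φ) (h : NilKer φ)
    (a : IdemMat S) : IdemMat R where
  n := a.n
  mat := (exists_lift_idem hs h a.mat a.idem).choose
  idem := (exists_lift_idem hs h a.mat a.idem).choose_spec.1

theorem liftIdem_map {φ : R →+* S} (hs : Function.Surjective φ) (h : NilKer φ)
    (a : IdemMat S) : (liftIdem hs h a).mat.map φ = a.mat :=
  (exists_lift_idem hs h a.mat a.idem).choose_spec.2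

/-- The inverse of `K₀(R) → K₀(S)` for a surjection with nilpotent kernel. -/
noncomputable def nilLift {φ : R →+* S} (hs : Function.Surjective φ) (h : NilKer φ) :
    K0 S →+ K0 R :=
  lift (fun a => mk (liftIdem hs h a))
    (fun a b hab => mk_eq_of_equiv (matEquiv_of_map hs h (liftIdem hs h a).idem
      (liftIdem hs h b).idem (by rw [liftIdem_map, liftIdem_map]; exact hab)))
    (fun a b => by
      rw [← mk_sum]
      refine mk_eq_of_equiv (matEquiv_of_map hs h (liftIdem hs h (a.sum b)).idem
        (IdemMat.sum _ _).idem ?_)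
      rw [liftIdem_map]
      have : (IdemMat.sum (liftIdem hs h a) (liftIdem hs h b)).mat.map φ = (a.sum b).mat := by
        have h1 : (fromBlocks (liftIdem hs h a).mat 0 0 (liftIdem hs h b).mat).map φ =
            fromBlocks a.mat 0 0 b.mat := by
          rw [fromBlocks_map, liftIdem_map, liftIdem_map, Matrix.map_zero _ (map_zero φ),
            Matrix.map_zero _ (map_zero φ)]
          rfl
        have h2 : (IdemMat.sum (liftIdem hs h a) (liftIdem hs h b)).mat.map φ =
            ((fromBlocks (liftIdem hs h a).mat 0 0 (liftIdem hs h b).mat).map φ).submatrix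
              finSumFinEquiv.symm finSumFinEquiv.symm := rfl
        rw [h2, h1]
        rfl
      rw [this]
      exact matEquiv_refl (a.sum b).idem)

theorem map_nilLift {φ : R →+* S} (hs : Function.Surjective φ) (h : NilKer φ) (x : K0 S) :
    map φ (nilLift hs h x) = x := by
  have : (map φ).comp (nilLift hs h) = AddMonoidHom.id _ := by
    apply hom_ext
    intro a
    rw [AddMonoidHom.comp_apply, nilLift, lift_mk, map_mk, AddMonoidHom.id_apply, mk_eq_cls]
    have := liftIdem_map hs h a
    exact cls_congr _ _ (by rw [this]; exact matEquiv_refl a.idem)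
  exact DFunLike.congr_fun this x

theorem nilLift_map {φ : R →+* S} (hs : Function.Surjective φ) (h : NilKer φ) (x : K0 R) :
    nilLift hs h (map φ x) = x := by
  have : (nilLift hs h).comp (map φ) = AddMonoidHom.id _ := by
    apply hom_ext
    intro a
    rw [AddMonoidHom.comp_apply, map_mk, AddMonoidHom.id_apply, cls, nilLift, lift_mk]
    refine mk_eq_of_equiv (matEquiv_of_map hs h (liftIdem hs h _).idem a.idem ?_)
    rw [liftIdem_map]
    exact toFin_equiv _ _
  exact DFunLike.congr_fun this x

theorem map_injective {φ : R →+* S} (hs : Function.Surjective φ) (h : NilKer φ) :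
    Function.Injective (map φ) :=
  Function.LeftInverse.injective (nilLift_map hs h)

end K0

end Pool.Agent.H71.FJ
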