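import Pool.Agent.H71.FJ.Nil

/-!
# Coefficient rings for lifting idempotents to characteristic zero
-/

set_option autoImplicit false

open Matrix

universe u v w

namespace Pool.Agent.H71.FJ

/-- A family of commutative rings with nilpotent surjections onto the field `K` that together
detect integers. -/
structure LiftSys (K : Type u) [Field K] where
  /-- the rings -/
  B : ℕ → Type u
  inst : ∀ n, CommRing (B n)
  /-- the projections -/
  π : ∀ n, B n →+* K
  surj : ∀ n, Function.Surjective (π n)
  nil : ∀ n, NilKer (π n)
  int : ∀ m : ℤ, (∀ n, (m : B n) = 0) → m = 0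

instance {K : Type u} [Field K] (L : LiftSys K) (n : ℕ) : CommRing (L.B n) := L.inst n

/-- In characteristic zero nothing has to be lifted. -/
noncomputable def liftSysZero (K : Type u) [Field K] [CharZero K] : LiftSys K where
  B _ := K
  inst _ := inferInstance
  π _ := RingHom.id K
  surj _ := Function.surjective_id
  nil _ := by
    refine ⟨1, fun j => if j = 0 then ⊤ else ⊥, ?_, ?_, ?_⟩
    · intro x
      simp
    · intro x hx
      simpa using hx
    · intro j x y hx hy
      have : x = 0 := hx
      rw [this, zero_mul]
      exact AddSubgroup.zero_mem _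
  int m h := by exact_mod_cast h 0

section CharP

variable (p : ℕ) [hp : Fact p.Prime] (K : Type u) [Field K] [CharP K p] [PerfectRing K p]

theorem witt_int (m : ℤ) (h : ∀ n : ℕ, ((p : WittVector p K) ^ (n + 1)) ∣ (m : WittVector p K)) :
    m = 0 := by
  have hp0 : (p : WittVector p K) ≠ 0 := WittVector.p_nonzero p K
  induction hN : m.natAbs using Nat.strong_induction_on generalizing m with
  | _ N ih =>
    by_contra hm
    have h1 := h 0
    rw [zero_add, pow_one] at h1
    have h2 : WittVector.constantCoeff (m : WittVector p K) = 0 := by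
      obtain ⟨c, hc⟩ := h1
      rw [hc, map_mul, map_natCast, CharP.cast_eq_zero, zero_mul]
    rw [map_intCast] at h2
    have h3 : (p : ℤ) ∣ m := (CharP.intCast_eq_zero_iff K p m).1 h2
    obtain ⟨m', rfl⟩ := h3
    have hm' : m' = 0 := by
      refine ih m'.natAbs ?_ m' ?_ rfl
      · rw [← hN, Int.natAbs_mul, Int.natAbs_natCast]
        have h4 : 0 < m'.natAbs := by
          rw [Int.natAbs_pos]
          rintro rfl
          simp at hm
        have h5 := hp.out.two_le
        nlinarith
      · intro n
        obtain ⟨c, hc⟩ := h (n + 1)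
        refine ⟨c, ?_⟩
        apply mul_left_cancel₀ hp0
        rw [Int.cast_mul, Int.cast_natCast] at hc
        rw [hc]
        ring
    rw [hm', mul_zero] at hm
    exact hm rfl

/-- In characteristic `p` we use the Witt vectors modulo powers of `p`. -/
noncomputable def liftSysP : LiftSys K where
  B n := WittVector p K ⧸ Ideal.span {(p : WittVector p K) ^ (n + 1)}
  inst n := inferInstance
  π n := Ideal.Quotient.lift _ (WittVector.constantCoeff : WittVector p K →+* K) (by
    intro a ha
    obtain ⟨c, rfl⟩ := Ideal.mem_span_singleton'.1 ha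
    rw [map_mul, map_pow, map_natCast, CharP.cast_eq_zero, zero_pow (Nat.succ_ne_zero n), mul_zero])
  surj n := by
    intro x
    refine ⟨Ideal.Quotient.mk _ (WittVector.teichmuller p x), ?_⟩
    rw [Ideal.Quotient.lift_mk]
    exact WittVector.teichmuller_coeff_zero p x
  nil n := by
    refine ⟨n + 1, fun j => (Ideal.span
      {((p : WittVector p K ⧸ Ideal.span {(p : WittVector p K) ^ (n + 1)})) ^ j}).toAddSubgroup,
      ?_, ?_, ?_⟩
    · intro x
      change x ∈ Ideal.span _
      rw [pow_zero, Ideal.span_singleton_one]
      trivial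
    · intro x hx
      change x ∈ Ideal.span _ at hx
      obtain ⟨c, rfl⟩ := Ideal.mem_span_singleton'.1 hx
      have : (p : WittVector p K ⧸ Ideal.span {(p : WittVector p K) ^ (n + 1)}) ^ (n + 1) = 0 := by
        rw [← map_natCast (Ideal.Quotient.mk (Ideal.span {(p : WittVector p K) ^ (n + 1)})) p,
          ← map_pow]
        exact Ideal.Quotient.eq_zero_iff_mem.2 (Ideal.mem_span_singleton_self _)
      rw [this, mul_zero]
    · intro j x y hx hy
      change y ∈ Ideal.span _ at hy
      change x * y ∈ Ideal.span _
      obtain ⟨d, rfl⟩ := Ideal.mem_span_singleton'.1 hy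
      obtain ⟨w, rfl⟩ := Ideal.Quotient.mk_surjective x
      rw [Ideal.Quotient.lift_mk] at hx
      have hw : w ∈ RingHom.ker (WittVector.constantCoeff : WittVector p K →+* K) := hx
      rw [WittVector.ker_constantCoeff] at hw
      obtain ⟨c, rfl⟩ := Ideal.mem_span_singleton'.1 hw
      refine Ideal.mem_span_singleton'.2 ⟨Ideal.Quotient.mk _ c * d, ?_⟩
      rw [map_mul, map_natCast]
      ring
  int m h := by
    apply witt_int p K m
    intro n
    have h1 := h n
    rw [← map_intCast (Ideal.Quotient.mk (Ideal.span {(p : WittVector p K) ^ (n + 1)})) m] at h1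
    exact Ideal.mem_span_singleton.1 (Ideal.Quotient.eq_zero_iff_mem.1 h1)

end CharP

theorem exists_liftSys (K : Type u) [Field K] [IsAlgClosed K] : Nonempty (LiftSys K) := by
  obtain ⟨p, hp⟩ := CharP.exists K
  rcases CharP.char_is_prime_or_zero K p with h | h
  · have : Fact p.Prime := ⟨h⟩
    have : PerfectRing K p := PerfectField.toPerfectRing p
    exact ⟨liftSysP p K⟩
  · subst h
    have : CharZero K := CharP.charP_to_charZero K
    exact ⟨liftSysZero K⟩

end Pool.Agent.H71.FJ
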