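import Pool.Agent.H71.FJ.Group
import Pool.Agent.H71.FJ.Coeff

/-!
# Artin type induction theorem for `K₀(k[F]) ⊗ ℚ`, `F` finite
-/

set_option autoImplicit false

open Matrix
open scoped Classical

universe u v w

namespace Pool.Agent.H71.FJ

/-- Möbius type coefficients on a finite partially ordered set. -/
theorem exists_nu {α : Type*} [PartialOrder α] (s : Finset α) (f : α → ℤ) :
    ∃ ν : α → ℤ, ∀ E ∈ s, ∑ D ∈ s.filter (fun D => E ≤ D), ν D = f E := by
  induction s using Finset.strongInduction with
  | H s ih =>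
    by_cases hs : s.Nonempty
    · obtain ⟨E₀, hE₀⟩ := s.exists_minimal hs
      obtain ⟨ν, hν⟩ := ih (s.erase E₀) (Finset.erase_ssubset hE₀.1)
      have hmin : ∀ E ∈ s, E ≤ E₀ → E = E₀ := fun E hE hle => le_antisymm hle (hE₀.2 hE hle)
      refine ⟨fun D => if D = E₀ then f E₀ - ∑ D ∈ (s.erase E₀).filter (fun D => E₀ ≤ D), ν D
        else ν D, ?_⟩
      intro E hE
      by_cases hEE : E = E₀
      · subst hEE
        have h1 : s.filter (fun D => E ≤ D) =
            insert E ((s.erase E).filter (fun D => E ≤ D)) := by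
          ext D
          simp only [Finset.mem_filter, Finset.mem_insert, Finset.mem_erase]
          constructor
          · rintro ⟨h1, h2⟩
            by_cases h3 : D = E
            · exact Or.inl h3
            · exact Or.inr ⟨⟨h3, h1⟩, h2⟩
          · rintro (rfl | ⟨⟨_, h1⟩, h2⟩)
            · exact ⟨hE, le_rfl⟩
            · exact ⟨h1, h2⟩
        rw [h1, Finset.sum_insert (by simp), if_pos rfl]
        have h2 : ∑ D ∈ (s.erase E).filter (fun D => E ≤ D), (if D = E then f E -
            ∑ D ∈ (s.erase E).filter (fun D => E ≤ D), ν D else ν D) =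
            ∑ D ∈ (s.erase E).filter (fun D => E ≤ D), ν D := by
          apply Finset.sum_congr rfl
          intro D hD
          rw [Finset.mem_filter, Finset.mem_erase] at hD
          rw [if_neg hD.1.1]
        rw [h2]
        ring
      · have h1 : s.filter (fun D => E ≤ D) = (s.erase E₀).filter (fun D => E ≤ D) := by
          ext D
          simp only [Finset.mem_filter, Finset.mem_erase]
          constructor
          · rintro ⟨h1, h2⟩
            refine ⟨⟨?_, h1⟩, h2⟩
            rintro rfl
            exact hEE (hmin E hE h2)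
          · rintro ⟨⟨_, h1⟩, h2⟩
            exact ⟨h1, h2⟩
        rw [h1, ← hν E (Finset.mem_erase.2 ⟨hEE, hE⟩)]
        apply Finset.sum_congr rfl
        intro D hD
        rw [Finset.mem_filter, Finset.mem_erase] at hD
        exact if_neg hD.1.1
    · rw [Finset.not_nonempty_iff_eq_empty] at hs
      subst hs
      exact ⟨fun _ => 0, by simp⟩

section Sum

variable {F : Type v} [Group F] [Fintype F]

theorem sum_out {M : Type*} [AddCommMonoid M] (D : Subgroup F) (g : F → M)
    (hg : ∀ y, ∀ d ∈ D, g (y * d) = g y) :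
    ∑ y : F, g y = Nat.card D • ∑ x : F ⧸ D, g x.out := by
  let E : (F ⧸ D) × D → F := fun p => p.1.out * p.2
  have hE : Function.Bijective E := by
    constructor
    · rintro ⟨x, d⟩ ⟨x', d'⟩ h
      simp only [E] at h
      have h1 : x = x' := by
        have := congrArg (fun z : F => (z : F ⧸ D)) h
        change ((x.out * (d : F) : F) : F ⧸ D) = ((x'.out * (d' : F) : F) : F ⧸ D) at this
        rw [QuotientGroup.mk_mul_of_mem _ d.2, QuotientGroup.mk_mul_of_mem _ d'.2,
          QuotientGroup.out_eq', QuotientGroup.out_eq'] at this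
        exact this
      subst h1
      rw [mul_right_inj] at h
      rw [Subtype.ext h]
    · intro y
      refine ⟨⟨(y : F ⧸ D), ⟨(y : F ⧸ D).out⁻¹ * y, ?_⟩⟩, ?_⟩
      · rw [← QuotientGroup.eq, QuotientGroup.out_eq']
      · simp [E]
  rw [← (Equiv.ofBijective E hE).sum_comp g, Fintype.sum_prod_type, Finset.smul_sum]
  apply Finset.sum_congr rfl
  intro x _
  have : ∀ d : D, g ((Equiv.ofBijective E hE) (x, d)) = g x.out := fun d => hg _ _ d.2
  simp only [this, Finset.sum_const, Finset.card_univ, Nat.card_eq_fintype_card]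

end Sum

section Vanish

variable {B : Type u} [CommRing B] {K : Type w} [Field K] {F : Type v} [Group F] [Fintype F]

/-- indicator function of the elements of order zero in `K` -/
noncomputable def sing (B : Type u) [CommRing B] (K : Type w) [Field K] {F : Type v} [Group F]
    (h : F) : B := if (orderOf h : K) = 0 then 1 else 0

omit [Fintype F] in
theorem orderOf_conj' (y h : F) : orderOf (y⁻¹ * h * y) = orderOf h := by
  have h1 : y⁻¹ * h * y = MulAut.conj y⁻¹ h := by simp
  rw [h1]
  exact orderOf_injective (MulAut.conj y⁻¹).toMonoidHom (MulAut.conj y⁻¹).injective h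

omit [Fintype F] in
theorem sing_comm (x y : F) : sing B K (x * y) = sing B K (y * x) := by
  unfold sing
  have : orderOf (x * y) = orderOf (y * x) := by
    rw [← orderOf_conj' x (x * y)]
    congr 1
    group
  rw [this]

/-- the induced function of the indicator function of `c` -/
noncomputable def psi (B : Type u) [CommRing B] {F : Type v} [Group F] [Fintype F] (c h : F) : B :=
  ∑ x : F ⧸ Subgroup.zpowers c, if x.out⁻¹ * h * x.out = c then 1 else 0

theorem card_mul_psi (c h : F) : (Nat.card (Subgroup.zpowers c) : B) * psi B c h =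
    ∑ y : F, if y⁻¹ * h * y = c then 1 else 0 := by
  rw [sum_out (Subgroup.zpowers c) (fun y => if y⁻¹ * h * y = c then (1 : B) else 0), nsmul_eq_mul]
  · rfl
  · intro y d hd
    obtain ⟨n, rfl⟩ := Subgroup.mem_zpowers_iff.1 hd
    have : (y * c ^ n)⁻¹ * h * (y * c ^ n) = c ↔ y⁻¹ * h * y = c := by
      have e : (y * c ^ n)⁻¹ * h * (y * c ^ n) = (c ^ n)⁻¹ * (y⁻¹ * h * y) * c ^ n := by group
      rw [e]
      constructor
      · intro h1
        have h2 : y⁻¹ * h * y = c ^ n * ((c ^ n)⁻¹ * (y⁻¹ * h * y) * c ^ n) * (c ^ n)⁻¹ := by group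
        rw [h2, h1]
        group
      · intro h1
        rw [h1]
        group
    simp only [this]

theorem psi_functional (c : F) (h : F) (r : B) :
    ((clsFun (dlt B (⟨c, Subgroup.mem_zpowers c⟩ : Subgroup.zpowers c))).comp
      ((traceAddMonoidHom _ _).comp (lamR B (Subgroup.zpowers c)).toAddMonoidHom))
      (MonoidAlgebra.single h r) = r * psi B c h := by
  simp only [AddMonoidHom.comp_apply, traceAddMonoidHom_apply]
  change clsFun _ (trace (lam B (Subgroup.zpowers c) (MonoidAlgebra.single h r))) = _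
  simp only [trace, diag, lam_single, map_sum, psi, Finset.mul_sum]
  apply Finset.sum_congr rfl
  intro x _
  by_cases hx : x.out⁻¹ * h * x.out = c
  · have hm : x.out⁻¹ * h * x.out ∈ Subgroup.zpowers c := by
      rw [hx]
      exact Subgroup.mem_zpowers c
    rw [dif_pos hm, clsFun_single, if_pos hx]
    congr 1
    have : (⟨x.out⁻¹ * h * x.out, hm⟩ : Subgroup.zpowers c) = ⟨c, Subgroup.mem_zpowers c⟩ :=
      Subtype.ext hx
    rw [this, dlt_self]
  · rw [if_neg hx, mul_zero]
    by_cases hm : x.out⁻¹ * h * x.out ∈ Subgroup.zpowers c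
    · rw [dif_pos hm, clsFun_single, dlt_ne, mul_zero]
      intro h1
      exact hx (congrArg Subtype.val h1)
    · rw [dif_neg hm, map_zero]

omit [Fintype F] in
theorem zc_comm (c : F) (a b : Subgroup.zpowers c) : a * b = b * a := by
  obtain ⟨a, ha⟩ := a
  obtain ⟨b, hb⟩ := b
  obtain ⟨m, rfl⟩ := Subgroup.mem_zpowers_iff.1 ha
  obtain ⟨n, rfl⟩ := Subgroup.mem_zpowers_iff.1 hb
  apply Subtype.ext
  exact ((Commute.refl c).zpow_zpow m n)

/-- cyclic subgroups as commutative groups -/
abbrev zcComm (c : F) : CommGroup (Subgroup.zpowers c) :=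
  { (inferInstance : Group (Subgroup.zpowers c)) with mul_comm := zc_comm c }

theorem psi_comm (c x y : F) : psi B c (x * y) = psi B c (y * x) := by
  have h1 := psi_functional (B := B) c (x * y) 1
  have h2 := psi_functional (B := B) c (y * x) 1
  rw [one_mul] at h1 h2
  rw [← h1, ← h2]
  have e1 : MonoidAlgebra.single (x * y) (1 : B) = MonoidAlgebra.single x 1 *
    MonoidAlgebra.single y 1 := by rw [MonoidAlgebra.single_mul_single, one_mul]
  have e2 : MonoidAlgebra.single (y * x) (1 : B) = MonoidAlgebra.single y 1 *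
    MonoidAlgebra.single x 1 := by rw [MonoidAlgebra.single_mul_single, one_mul]
  rw [e1, e2]
  exact K0.trace_push_aux _ (clsFun_comm _ (fun a b => by rw [zc_comm c a b])) _ _ _

theorem T_psi {φ : B →+* K} (hn : NilKer φ) (c : F) (hc : (orderOf c : K) = 0)
    (x : K0 (MonoidAlgebra B F)) : T (psi B c) (psi_comm c) x = 0 := by
  have hcomm : ∀ a b : Subgroup.zpowers c,
      dlt B (⟨c, Subgroup.mem_zpowers c⟩ : Subgroup.zpowers c) (a * b) =
      dlt B (⟨c, Subgroup.mem_zpowers c⟩ : Subgroup.zpowers c) (b * a) :=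
    fun a b => by rw [zc_comm c a b]
  have h1 : T (dlt B (⟨c, Subgroup.mem_zpowers c⟩ : Subgroup.zpowers c)) hcomm
      (K0.push (lamR B (Subgroup.zpowers c)) x) = T (psi B c) (psi_comm c) x := by
    rw [T, K0.tr_push]
    refine K0.tr_congr _ _ ?_ x
    ext h r
    simp only [AddMonoidHom.comp_apply, MonoidAlgebra.singleAddHom_apply]
    rw [clsFun_single, ← psi_functional]
    rfl
  rw [← h1]
  let _ := zcComm c
  have h2 : (orderOf (⟨c, Subgroup.mem_zpowers c⟩ : Subgroup.zpowers c) : K) = 0 := by
    rw [Subgroup.orderOf_mk]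
    exact hc
  exact @abelian_vanish B _ K _ (Subgroup.zpowers c) (zcComm c) _ φ hn _ h2 _ hcomm

theorem sing_vanish {φ : B →+* K} (hn : NilKer φ) (x : K0 (MonoidAlgebra B F)) :
    T (fun h => (Nat.card F : B) * sing B K h) (fun x y => by rw [sing_comm]) x = 0 := by
  have hid : ∀ h : F, (Nat.card F : B) * sing B K h =
      ∑ c ∈ Finset.univ.filter (fun c : F => (orderOf c : K) = 0),
        (Nat.card (Subgroup.zpowers c) : B) * psi B c h := by
    intro h
    simp only [card_mul_psi]
    rw [Finset.sum_comm]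
    have : ∀ y : F, ∑ c ∈ Finset.univ.filter (fun c : F => (orderOf c : K) = 0),
        (if y⁻¹ * h * y = c then (1 : B) else 0) = sing B K h := by
      intro y
      rw [Finset.sum_ite_eq]
      unfold sing
      simp only [Finset.mem_filter, Finset.mem_univ, true_and, orderOf_conj']
    simp only [this, Finset.sum_const, Finset.card_univ, nsmul_eq_mul, Nat.card_eq_fintype_card]
  rw [T_congr _ (fun x y => by simp only [psi_comm]) hid,
    T_sum _ _ (fun c => psi B c) (fun c => psi_comm c)]
  apply Finset.sum_eq_zero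
  intro c hc
  rw [T_psi hn c (Finset.mem_filter.1 hc).2, mul_zero]

end Vanish

section Rank

theorem T_add {B : Type u} [CommRing B] {G : Type v} [Group G] (f g : G → B)
    (hf : ∀ x y, f (x * y) = f (y * x)) (hg : ∀ x y, g (x * y) = g (y * x))
    (hfg : ∀ x y, f (x * y) + g (x * y) = f (y * x) + g (y * x)) (x : K0 (MonoidAlgebra B G)) :
    T (fun a => f a + g a) hfg x = T f hf x + T g hg x := by
  have : T (fun a => f a + g a) hfg = T f hf + T g hg := by
    apply K0.hom_ext
    intro a
    simp only [T, K0.tr_mk, AddMonoidHom.add_apply]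
    exact clsFun_add f g _
  rw [this]
  rfl

theorem T_mul {B : Type u} [CommRing B] {G : Type v} [Group G] (m : B) (f : G → B)
    (hf : ∀ x y, f (x * y) = f (y * x)) (hf' : ∀ x y, m * f (x * y) = m * f (y * x))
    (x : K0 (MonoidAlgebra B G)) : T (fun a => m * f a) hf' x = m * T f hf x := by
  have : T (fun a => m * f a) hf' = (AddMonoidHom.mulLeft m).comp (T f hf) := by
    apply K0.hom_ext
    intro a
    simp only [T, K0.tr_mk, AddMonoidHom.comp_apply, AddMonoidHom.coe_mulLeft]
    exact clsFun_mul m f _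
  rw [this]
  rfl

/-- The augmentation. -/
noncomputable def aug (R : Type u) [CommRing R] (F : Type v) [Group F] :
    MonoidAlgebra R F →ₐ[R] R := MonoidAlgebra.lift R R F 1

theorem aug_single (R : Type u) [CommRing R] {F : Type v} [Group F] (h : F) (r : R) :
    aug R F (MonoidAlgebra.single h r) = r := by
  rw [aug, MonoidAlgebra.lift_single]
  simp

theorem tr_aug (R : Type u) [CommRing R] {F : Type v} [Group F] (x : K0 (MonoidAlgebra R F)) :
    K0.tr (AddMonoidHom.id R) (fun x y => mul_comm x y) (K0.map (aug R F).toRingHom x) =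
      T (fun _ => 1) (fun _ _ => rfl) x := by
  rw [K0.tr_map]
  refine K0.tr_congr _ _ ?_ x
  ext h r
  simp only [AddMonoidHom.comp_apply, MonoidAlgebra.singleAddHom_apply]
  rw [clsFun_single, mul_one]
  exact aug_single R h r

variable {F : Type v} [Group F] [Fintype F]

/-- number of fixed points of `h` on `F/D` -/
noncomputable def fixN (D : Subgroup F) (h : F) : ℕ :=
  (Finset.univ.filter fun x : F ⧸ D => x = h • x).card

theorem card_mul_fixN (D : Subgroup F) (h : F) : Nat.card D * fixN D h =
    ∑ y : F, if y⁻¹ * h * y ∈ D then 1 else 0 := by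
  rw [sum_out D (fun y => if y⁻¹ * h * y ∈ D then 1 else 0), smul_eq_mul, fixN,
    Finset.card_filter]
  · congr 1
    apply Finset.sum_congr rfl
    intro x _
    by_cases hx : x = h • x
    · rw [if_pos hx, if_pos ((out_mem_iff D h x x).2 hx)]
    · rw [if_neg hx, if_neg (fun hh => hx ((out_mem_iff D h x x).1 hh))]
  · intro y d hd
    have : (y * d)⁻¹ * h * (y * d) ∈ D ↔ y⁻¹ * h * y ∈ D := by
      have e : (y * d)⁻¹ * h * (y * d) = d⁻¹ * (y⁻¹ * h * y) * d := by group
      rw [e]
      constructor
      · intro h1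
        have h2 : y⁻¹ * h * y = d * (d⁻¹ * (y⁻¹ * h * y) * d) * d⁻¹ := by group
        rw [h2]
        exact D.mul_mem (D.mul_mem hd h1) (D.inv_mem hd)
      · intro h1
        exact D.mul_mem (D.mul_mem (D.inv_mem hd) h1) hd
    simp only [this]

theorem perm_comm {R : Type u} [CommRing R] (D : Subgroup F) (x y : F) :
    (fixN D (x * y) : R) = fixN D (y * x) := by
  have := trace_rep_comm R (perm R (F ⧸ D)) x y
  rw [trace_perm, trace_perm] at this
  exact this

theorem tr_perm {R : Type u} [CommRing R] (D : Subgroup F) (x : K0 (MonoidAlgebra R F)) :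
    K0.tr (AddMonoidHom.id R) (fun x y => mul_comm x y) (K0.push (permR R (F ⧸ D)) x) =
      T (fun h => (fixN D h : R)) (perm_comm D) x := by
  rw [show K0.push (permR R (F ⧸ D)) x = K0.push ((perm R (F ⧸ D) :
    MonoidAlgebra R F →ₐ[R] Matrix (F ⧸ D) (F ⧸ D) R) :
    MonoidAlgebra R F →+* Matrix (F ⧸ D) (F ⧸ D) R) x from rfl,
    tr_push_rep R (perm R (F ⧸ D)) (trace_rep_comm R _) x]
  apply T_congr
  intro h
  rw [trace_perm]
  rfl

theorem fix_identity {B : Type u} [CommRing B] {K : Type w} [Field K]
    (s : Finset (Subgroup F)) (ν : Subgroup F → ℤ)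
    (h1 : ∀ D ∈ s, ∀ h ∈ D, (orderOf h : K) ≠ 0)
    (h2 : ∀ h : F, (orderOf h : K) ≠ 0 → ∑ D ∈ s.filter (fun D => h ∈ D), ν D = 1) (h : F) :
    (Nat.card F : B) * 1 = (Nat.card F : B) * sing B K h +
      ∑ D ∈ s, ((ν D : B) * Nat.card D) * fixN D h := by
  have e1 : ∀ D ∈ s, ((ν D : B) * Nat.card D) * fixN D h =
      ∑ y : F, if y⁻¹ * h * y ∈ D then (ν D : B) else 0 := by
    intro D _
    have := card_mul_fixN D h
    rw [mul_assoc, ← Nat.cast_mul, this, Nat.cast_sum, Finset.mul_sum]
    apply Finset.sum_congr rfl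
    intro y _
    split_ifs <;> simp
  rw [Finset.sum_congr rfl e1, Finset.sum_comm]
  have e2 : ∀ y : F, ∑ D ∈ s, (if y⁻¹ * h * y ∈ D then (ν D : B) else 0) =
      1 - sing B K h := by
    intro y
    rw [← Finset.sum_filter]
    by_cases hy : (orderOf h : K) = 0
    · have : s.filter (fun D => y⁻¹ * h * y ∈ D) = ∅ := by
        rw [Finset.filter_eq_empty_iff]
        intro D hD hmem
        apply h1 D hD _ hmem
        rw [orderOf_conj']
        exact hy
      rw [this, Finset.sum_empty, sing, if_pos hy, sub_self]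
    · have := h2 (y⁻¹ * h * y) (by rw [orderOf_conj']; exact hy)
      rw [sing, if_neg hy, sub_zero]
      have h3 : ((∑ D ∈ s.filter (fun D => y⁻¹ * h * y ∈ D), ν D : ℤ) : B) = 1 := by
        rw [this, Int.cast_one]
      rw [← h3, Int.cast_sum]
  simp only [e2, Finset.sum_const, Finset.card_univ, nsmul_eq_mul, Nat.card_eq_fintype_card]
  ring

theorem rank_identity {K : Type w} [Field K] (L : LiftSys K)
    (s : Finset (Subgroup F)) (ν : Subgroup F → ℤ)
    (h1 : ∀ D ∈ s, ∀ h ∈ D, (orderOf h : K) ≠ 0)
    (h2 : ∀ h : F, (orderOf h : K) ≠ 0 → ∑ D ∈ s.filter (fun D => h ∈ D), ν D = 1)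
    (x : K0 (MonoidAlgebra K F)) :
    (Nat.card F : ℤ) * K0.rk (K0.map (aug K F).toRingHom x) =
      ∑ D ∈ s, ν D * Nat.card D * K0.rk (K0.push (permR K (F ⧸ D)) x) := by
  rw [← sub_eq_zero]
  apply L.int
  intro n
  have hs : Function.Surjective (MonoidAlgebra.mapRingHom F (L.π n)) := by
    intro a
    induction a using MonoidAlgebra.induction_linear with
    | zero => exact ⟨0, map_zero _⟩
    | add a b ha hb =>
      obtain ⟨a', rfl⟩ := ha
      obtain ⟨b', rfl⟩ := hb
      exact ⟨a' + b', map_add _ _ _⟩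
    | single g r =>
      obtain ⟨r', rfl⟩ := L.surj n r
      exact ⟨MonoidAlgebra.single g r', MonoidAlgebra.mapRingHom_single _ _ _⟩
  have hnil := (L.nil n).monoidAlgebra F
  obtain ⟨y, hy⟩ : ∃ y, y = K0.nilLift hs hnil x := ⟨_, rfl⟩
  have hyx : K0.map (MonoidAlgebra.mapRingHom F (L.π n)) y = x := by
    rw [hy, K0.map_nilLift]
  have e1 : (K0.rk (K0.map (aug K F).toRingHom x) : L.B n) = T (fun _ => 1) (fun _ _ => rfl) y := by
    rw [← tr_aug, K0.tr_eq_rk (L.surj n) (L.nil n), K0.map_map, ← hyx, K0.map_map]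
    congr 3
    have : (aug K F).toRingHom.comp (MonoidAlgebra.mapRingHom F (L.π n)) =
        (L.π n).comp (aug (L.B n) F).toRingHom := by
      apply RingHom.ext
      intro a
      induction a using MonoidAlgebra.induction_linear with
      | zero => simp
      | add a b ha hb => rw [map_add, map_add, ha, hb]
      | single g r =>
        change aug K F (MonoidAlgebra.mapRingHom F (L.π n) (MonoidAlgebra.single g r)) =
          L.π n (aug (L.B n) F (MonoidAlgebra.single g r))
        rw [MonoidAlgebra.mapRingHom_single, aug_single, aug_single]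
    rw [this]
  have e2 : ∀ D : Subgroup F, (K0.rk (K0.push (permR K (F ⧸ D)) x) : L.B n) =
      T (fun h => (fixN D h : L.B n)) (perm_comm D) y := by
    intro D
    rw [← tr_perm, K0.tr_eq_rk (L.surj n) (L.nil n), K0.map_push, ← hyx, K0.push_map]
    congr 3
    have : (permR K (F ⧸ D)).comp (MonoidAlgebra.mapRingHom F (L.π n)) =
        (L.π n).mapMatrix.comp (permR (L.B n) (F ⧸ D)) := by
      apply RingHom.ext
      intro a
      induction a using MonoidAlgebra.induction_linear with
      | zero => simp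
      | add a b ha hb => rw [map_add, map_add, ha, hb]
      | single g r =>
        ext p q : 1
        change perm K (F ⧸ D) (MonoidAlgebra.mapRingHom F (L.π n) (MonoidAlgebra.single g r)) p q =
          L.π n (perm (L.B n) (F ⧸ D) (MonoidAlgebra.single g r) p q)
        rw [MonoidAlgebra.mapRingHom_single, perm_single, perm_single]
        split_ifs <;> simp
    rw [this]
  push_cast
  rw [e1]
  simp only [e2]
  have hcomm1 : ∀ a b : F, (Nat.card F : L.B n) * sing (L.B n) K (a * b) =
    (Nat.card F : L.B n) * sing (L.B n) K (b * a) := fun a b => by rw [sing_comm]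
  have hcomm2 : ∀ a b : F, ∑ D ∈ s, ((ν D : L.B n) * Nat.card D) * fixN D (a * b) =
      ∑ D ∈ s, ((ν D : L.B n) * Nat.card D) * fixN D (b * a) :=
    fun a b => Finset.sum_congr rfl (fun D _ => by rw [perm_comm])
  rw [← T_mul (Nat.card F : L.B n) (fun _ => 1) (fun _ _ => rfl) (fun _ _ => rfl),
    T_congr (g := fun h => (Nat.card F : L.B n) * sing (L.B n) K h +
      ∑ D ∈ s, ((ν D : L.B n) * Nat.card D) * fixN D h) (fun _ _ => rfl)
      (fun a b => by rw [hcomm1, hcomm2]) (fix_identity (K := K) s ν h1 h2),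
    T_add _ _ hcomm1 hcomm2, sing_vanish (L.nil n),
    T_sum s (fun D => (ν D : L.B n) * Nat.card D) (fun D h => (fixN D h : L.B n))
      (fun D => perm_comm D) hcomm2, zero_add, sub_self]

end Rank

end Pool.Agent.H71.FJ
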