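import Pool.Agent.H71.FJ.K0

/-!
# The degree zero part of the assembly map
-/

set_option autoImplicit false

open Matrix
open scoped Classical

universe u v w

namespace Pool.Agent.H71.FJ

theorem colimRel_le' (k : Type u) [Field k] (G : Type v) [Group G] :
    colimRel k G ≤ (assemblySum k G).ker := colimRel_le k G

end Pool.Agent.H71.FJ
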