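import Mathlib

/-!
# `K₀` of rings and the degree zero assembly map for finite subgroups

`K0 R` is the abelian group generated by the idempotent matrices over `R`, modulo `[e] = [f]` if
`e = x y`, `f = y x` for some (rectangular) matrices `x, y`, and `[e ⊕ f] = [e] + [f]`.

`ColimK0 R G` is the colimit of `K₀(R[F])` over the finite subgroups `F` of `G`, the morphisms
`F → F'` being the restrictions of the conjugations `x ↦ g x g⁻¹` with `g F g⁻¹ ⊆ F'`, and
`assembly R G` is the natural map from it to `K₀(R[G])`.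
-/

set_option autoImplicit false

open Matrix

universe u v w

namespace Pool.Agent.H71.FJ

/-- Equivalence of idempotent matrices, possibly of different sizes: `e = x y`, `f = y x`. -/
def MatEquiv {R : Type u} [Ring R] {ι κ : Type*} [Fintype ι] [Fintype κ]
    (e : Matrix ι ι R) (f : Matrix κ κ R) : Prop :=
  ∃ (x : Matrix ι κ R) (y : Matrix κ ι R), x * y = e ∧ y * x = f

/-- An idempotent square matrix over `R`. -/
structure IdemMat (R : Type u) [Ring R] where
  /-- the size -/
  n : ℕ
  /-- the matrix -/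
  mat : Matrix (Fin n) (Fin n) R
  idem : mat * mat = mat

theorem IdemMat.sum_idem {R : Type u} [Ring R] (a b : IdemMat R) :
    (fromBlocks a.mat 0 0 b.mat).submatrix finSumFinEquiv.symm finSumFinEquiv.symm *
      (fromBlocks a.mat 0 0 b.mat).submatrix finSumFinEquiv.symm finSumFinEquiv.symm =
      (fromBlocks a.mat 0 0 b.mat).submatrix finSumFinEquiv.symm finSumFinEquiv.symm := by
  rw [submatrix_mul_equiv, fromBlocks_multiply]
  simp [a.idem, b.idem]

/-- The block sum `a ⊕ b`. -/
def IdemMat.sum {R : Type u} [Ring R] (a b : IdemMat R) : IdemMat R where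
  n := a.n + b.n
  mat := (fromBlocks a.mat 0 0 b.mat).submatrix finSumFinEquiv.symm finSumFinEquiv.symm
  idem := IdemMat.sum_idem a b

theorem IdemMat.map_idem {R : Type u} [Ring R] {S : Type v} [Ring S] (f : R →+* S)
    (a : IdemMat R) : a.mat.map f * a.mat.map f = a.mat.map f := by
  rw [← Matrix.map_mul, a.idem]

/-- The image of an idempotent matrix under a ring homomorphism. -/
def IdemMat.map {R : Type u} [Ring R] {S : Type v} [Ring S] (f : R →+* S) (a : IdemMat R) :
    IdemMat S where
  n := a.n
  mat := a.mat.map f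
  idem := IdemMat.map_idem f a

/-- The relations of `K₀`. -/
def K0Rel (R : Type u) [Ring R] : AddSubgroup (FreeAbelianGroup (IdemMat R)) :=
  AddSubgroup.closure
    ({z | ∃ a b : IdemMat R, MatEquiv a.mat b.mat ∧
        z = FreeAbelianGroup.of a - FreeAbelianGroup.of b} ∪
      {z | ∃ a b : IdemMat R,
        z = FreeAbelianGroup.of (a.sum b) - (FreeAbelianGroup.of a + FreeAbelianGroup.of b)})

/-- The group `K₀(R)`. -/
def K0 (R : Type u) [Ring R] : Type u := FreeAbelianGroup (IdemMat R) ⧸ K0Rel R

instance instK0 (R : Type u) [Ring R] : AddCommGroup (K0 R) :=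
  QuotientAddGroup.Quotient.addCommGroup (K0Rel R)

namespace K0

variable {R : Type u} [Ring R] {S : Type v} [Ring S]

/-- The class of an idempotent matrix. -/
def mk (a : IdemMat R) : K0 R := QuotientAddGroup.mk (FreeAbelianGroup.of a)

theorem mk_eq_of_equiv {a b : IdemMat R} (h : MatEquiv a.mat b.mat) : mk a = mk b := by
  refine (QuotientAddGroup.eq_iff_sub_mem).2 ?_
  exact AddSubgroup.subset_closure (Or.inl ⟨a, b, h, rfl⟩)

theorem hom_ext {M : Type*} [AddCommGroup M] {f g : K0 R →+ M} (h : ∀ a, f (mk a) = g (mk a)) :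
    f = g := by
  apply QuotientAddGroup.addMonoidHom_ext
  apply FreeAbelianGroup.lift_ext
  exact h

theorem matEquiv_map {ι κ : Type*} [Fintype ι] [Fintype κ] (f : R →+* S) {e : Matrix ι ι R}
    {g : Matrix κ κ R} (h : MatEquiv e g) : MatEquiv (e.map f) (g.map f) := by
  obtain ⟨x, y, h1, h2⟩ := h
  exact ⟨x.map f, y.map f, by rw [← Matrix.map_mul, h1], by rw [← Matrix.map_mul, h2]⟩

theorem map_sum' (f : R →+* S) (a b : IdemMat R) : (a.sum b).map f = (a.map f).sum (b.map f) := by
  have h1 : (a.sum b).mat.map f = ((a.map f).sum (b.map f)).mat := by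
    change ((fromBlocks a.mat 0 0 b.mat).submatrix finSumFinEquiv.symm
      finSumFinEquiv.symm).map f = (fromBlocks (a.mat.map f) 0 0 (b.mat.map f)).submatrix
        finSumFinEquiv.symm finSumFinEquiv.symm
    rw [← Matrix.submatrix_map, Matrix.fromBlocks_map]
    simp only [Matrix.map_zero _ (map_zero f)]
  unfold IdemMat.map
  simp only [h1]
  rfl

theorem map_le (f : R →+* S) :
    K0Rel R ≤ (K0Rel S).comap (FreeAbelianGroup.map (IdemMat.map f)) := by
  rw [K0Rel, AddSubgroup.closure_le]
  rintro z (⟨a, b, hab, rfl⟩ | ⟨a, b, rfl⟩)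
  · refine AddSubgroup.subset_closure (Or.inl ⟨a.map f, b.map f, matEquiv_map f hab, ?_⟩)
    rw [map_sub, FreeAbelianGroup.map_of_apply, FreeAbelianGroup.map_of_apply]
  · refine AddSubgroup.subset_closure (Or.inr ⟨a.map f, b.map f, ?_⟩)
    rw [map_sub, map_add, FreeAbelianGroup.map_of_apply, FreeAbelianGroup.map_of_apply,
      FreeAbelianGroup.map_of_apply, map_sum']

/-- The homomorphism `K₀(R) → K₀(S)` induced by a ring homomorphism `R → S`. -/
def map (f : R →+* S) : K0 R →+ K0 S :=
  QuotientAddGroup.map (K0Rel R) (K0Rel S) (FreeAbelianGroup.map (IdemMat.map f)) (map_le f)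

theorem map_mk' (f : R →+* S) (a : IdemMat R) : map f (mk a) = mk (a.map f) := by
  change (QuotientAddGroup.mk (FreeAbelianGroup.map (IdemMat.map f) (FreeAbelianGroup.of a)) :
    K0 S) = _
  rw [FreeAbelianGroup.map_of_apply]
  rfl

end K0

/-- The finite subgroups of `G`. -/
abbrev FinSub (G : Type v) [Group G] : Type v := {F : Subgroup G // Finite F}

theorem conj_mul {G : Type v} [Group G] (g : G) (F F' : Subgroup G)
    (h : ∀ x ∈ F, g * x * g⁻¹ ∈ F') (x y : F) :
    (⟨g * ↑(x * y) * g⁻¹, h _ (x * y).2⟩ : F') =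
      ⟨g * x * g⁻¹, h x x.2⟩ * ⟨g * y * g⁻¹, h y y.2⟩ := by
  apply Subtype.ext
  simp only [Subgroup.coe_mul]
  group

/-- Conjugation by `g` as a homomorphism `F → F'` if `g F g⁻¹ ⊆ F'`. -/
def conjHom {G : Type v} [Group G] (g : G) (F F' : Subgroup G)
    (h : ∀ x ∈ F, g * x * g⁻¹ ∈ F') : F →* F' :=
  MonoidHom.mk' (fun x => ⟨g * x * g⁻¹, h x x.2⟩) (conj_mul g F F' h)

/-- The homomorphism `K₀(R[F]) → K₀(R[F'])` induced by a group homomorphism `F → F'`. -/
noncomputable def ind (R : Type u) [Ring R] {F F' : Type v} [Group F] [Group F'] (φ : F →* F') :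
    K0 (MonoidAlgebra R F) →+ K0 (MonoidAlgebra R F') :=
  K0.map (MonoidAlgebra.mapDomainRingHom R φ)

/-- `K₀(R[F])` for a finite subgroup `F` of `G`. -/
abbrev FinK0 (R : Type u) [Ring R] (G : Type v) [Group G] (F : FinSub G) : Type (max u v) :=
  K0 (MonoidAlgebra R F.1)

/-- `⨁_F K₀(R[F])` over all finite subgroups `F` of `G`. -/
abbrev SumK0 (R : Type u) [Ring R] (G : Type v) [Group G] : Type (max u v) :=
  DirectSum (FinSub G) (FinK0 R G)

/-- The inclusion of the summand of `F`. -/
noncomputable def inc (R : Type u) [Ring R] (G : Type v) [Group G] (F : FinSub G) :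
    FinK0 R G F →+ SumK0 R G :=
  open scoped Classical in DirectSum.of (FinK0 R G) F

/-- The relation `c_g(x) - x` of the colimit. -/
noncomputable def rel (R : Type u) [Ring R] (G : Type v) [Group G] (F F' : FinSub G) (g : G)
    (h : ∀ x ∈ F.1, g * x * g⁻¹ ∈ F'.1) (x : FinK0 R G F) : SumK0 R G :=
  inc R G F' (ind R (conjHom g F.1 F'.1 h) x) - inc R G F x

/-- The relations of the colimit: `c_g(x) = x` for `x ∈ K₀(R[F])`, `g F g⁻¹ ⊆ F'`. -/
noncomputable def colimRel (R : Type u) [Ring R] (G : Type v) [Group G] :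
    AddSubgroup (SumK0 R G) :=
  AddSubgroup.closure {z | ∃ F F' g h x, z = rel R G F F' g h x}

/-- The colimit of `K₀(R[F])` over the finite subgroups `F` of `G`. -/
def ColimK0 (R : Type u) [Ring R] (G : Type v) [Group G] : Type (max u v) :=
  SumK0 R G ⧸ colimRel R G

noncomputable instance instColimK0 (R : Type u) [Ring R] (G : Type v) [Group G] :
    AddCommGroup (ColimK0 R G) := QuotientAddGroup.Quotient.addCommGroup (colimRel R G)

/-- The assembly map on the direct sum, given by the inclusions `F → G`. -/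
noncomputable def assemblySum (R : Type u) [Ring R] (G : Type v) [Group G] :
    SumK0 R G →+ K0 (MonoidAlgebra R G) :=
  open scoped Classical in
  DirectSum.toAddMonoid fun F : FinSub G => ind R F.1.subtype

theorem single_inv (R : Type u) [Ring R] {G : Type v} [Group G] (g : G) :
    (MonoidAlgebra.single g⁻¹ 1 : MonoidAlgebra R G) * MonoidAlgebra.single g 1 = 1 := by
  rw [MonoidAlgebra.single_mul_single, inv_mul_cancel, one_mul, MonoidAlgebra.one_def]

theorem ind_conj (R : Type u) [Ring R] {G : Type v} [Group G] (g : G) (F F' : Subgroup G)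
    (h : ∀ x ∈ F, g * x * g⁻¹ ∈ F') (x : K0 (MonoidAlgebra R F)) :
    ind R F'.subtype (ind R (conjHom g F F' h) x) = ind R F.subtype x := by
  suffices H : (ind R F'.subtype).comp (ind R (conjHom g F F' h)) = ind R F.subtype from
    congrArg (fun f : K0 (MonoidAlgebra R F) →+ K0 (MonoidAlgebra R G) => f x) H
  apply K0.hom_ext
  intro a
  change K0.map _ (K0.map _ (K0.mk a)) = K0.map _ (K0.mk a)
  rw [K0.map_mk', K0.map_mk', K0.map_mk']
  apply K0.mk_eq_of_equiv
  change MatEquiv ((a.mat.map (MonoidAlgebra.mapDomainRingHom R (conjHom g F F' h))).map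
    (MonoidAlgebra.mapDomainRingHom R F'.subtype))
    (a.mat.map (MonoidAlgebra.mapDomainRingHom R F.subtype))
  set e := a.mat.map (MonoidAlgebra.mapDomainRingHom R F.subtype) with he
  have hee : e * e = e := by rw [he, ← Matrix.map_mul, a.idem]
  have key : ∀ r : MonoidAlgebra R F, MonoidAlgebra.mapDomainRingHom R F'.subtype
      (MonoidAlgebra.mapDomainRingHom R (conjHom g F F' h) r) =
      MonoidAlgebra.single g 1 * MonoidAlgebra.mapDomainRingHom R F.subtype r *
        MonoidAlgebra.single g⁻¹ 1 := by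
    intro r
    induction r using MonoidAlgebra.induction_linear with
    | zero => simp
    | add a b ha hb => rw [map_add, map_add, ha, hb, map_add, mul_add, add_mul]
    | single s t =>
      change MonoidAlgebra.mapDomain F'.subtype (MonoidAlgebra.mapDomain (conjHom g F F' h)
        (MonoidAlgebra.single s t)) = MonoidAlgebra.single g 1 *
          MonoidAlgebra.mapDomain F.subtype (MonoidAlgebra.single s t) *
          MonoidAlgebra.single g⁻¹ 1
      rw [MonoidAlgebra.mapDomain_single, MonoidAlgebra.mapDomain_single,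
        MonoidAlgebra.mapDomain_single, MonoidAlgebra.single_mul_single,
        MonoidAlgebra.single_mul_single, one_mul, mul_one]
      rfl
  have h1 : (a.mat.map (MonoidAlgebra.mapDomainRingHom R (conjHom g F F' h))).map
      (MonoidAlgebra.mapDomainRingHom R F'.subtype) =
      (diagonal fun _ => MonoidAlgebra.single g 1) * e *
        (diagonal fun _ => MonoidAlgebra.single g⁻¹ 1) := by
    refine Matrix.ext fun i j => ?_
    rw [Matrix.mul_diagonal, Matrix.diagonal_mul]
    exact key _
  have h2 : (diagonal fun _ : Fin a.n => (MonoidAlgebra.single g⁻¹ 1 : MonoidAlgebra R G)) *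
      (diagonal fun _ => MonoidAlgebra.single g 1) = 1 := by
    rw [diagonal_mul_diagonal]
    simp only [single_inv]
    exact diagonal_one
  refine ⟨(diagonal fun _ => MonoidAlgebra.single g 1) * e,
    e * (diagonal fun _ => MonoidAlgebra.single g⁻¹ 1), ?_, ?_⟩
  · rw [h1, Matrix.mul_assoc, ← Matrix.mul_assoc e, hee, ← Matrix.mul_assoc]
  · rw [Matrix.mul_assoc, ← Matrix.mul_assoc (diagonal fun _ => MonoidAlgebra.single g⁻¹ 1), h2,
      Matrix.one_mul, hee]

theorem colimRel_le (R : Type u) [Ring R] (G : Type v) [Group G] :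
    colimRel R G ≤ (assemblySum R G).ker := by
  rw [colimRel, AddSubgroup.closure_le]
  rintro z ⟨F, F', g, h, x, rfl⟩
  classical
  change DirectSum.toAddMonoid _ _ = 0
  rw [rel, map_sub, inc, inc, DirectSum.toAddMonoid_of, DirectSum.toAddMonoid_of]
  exact sub_eq_zero.2 (ind_conj R g F.1 F'.1 h x)

/-- The assembly map in degree zero. -/
noncomputable def assembly (R : Type u) [Ring R] (G : Type v) [Group G] :
    ColimK0 R G →+ K0 (MonoidAlgebra R G) :=
  QuotientAddGroup.lift (colimRel R G) (assemblySum R G) (colimRel_le R G)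

end Pool.Agent.H71.FJ
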