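import Pool.Agent.H71.FJ.Nil

/-!
# Idempotent matrices over division rings; ranks and traces
-/

set_option autoImplicit false

open Matrix

universe u v w

namespace Pool.Agent.H71.FJ

/-- Idempotent matrices over a division ring are equivalent to identity matrices. -/
theorem exists_matEquiv_one {D : Type u} [DivisionRing D] {ι : Type*} [Fintype ι] [DecidableEq ι]
    (e : Matrix ι ι D) (he : e * e = e) :
    ∃ r : ℕ, MatEquiv e (1 : Matrix (Fin r) (Fin r) D) := by
  set f : (ι → D) →ₗ[D] (ι → D) := e.toLinearMapRight' with hf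
  have hff : ∀ v, f (f v) = f v := by
    intro v
    rw [hf, ← Matrix.toLinearMapRight'_mul_apply, he]
  have hM : LinearMap.toMatrixRight' f = e := by
    rw [hf]
    exact LinearMap.toMatrixRight'.apply_symm_apply e
  let ψ : LinearMap.range f ≃ₗ[D] (Fin (Module.finrank D (LinearMap.range f)) → D) :=
    (Module.finBasis D (LinearMap.range f)).equivFun
  let X : (ι → D) →ₗ[D] (Fin (Module.finrank D (LinearMap.range f)) → D) :=
    ψ.toLinearMap ∘ₗ f.rangeRestrict
  let Y : (Fin (Module.finrank D (LinearMap.range f)) → D) →ₗ[D] (ι → D) :=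
    (LinearMap.range f).subtype ∘ₗ ψ.symm.toLinearMap
  have hYX : Y ∘ₗ X = f := by
    refine LinearMap.ext fun v => ?_
    simp only [X, Y, LinearMap.comp_apply, LinearEquiv.coe_coe, LinearEquiv.symm_apply_apply]
    rfl
  have hXY : X ∘ₗ Y = LinearMap.id := by
    refine LinearMap.ext fun v => ?_
    simp only [X, Y, LinearMap.comp_apply, LinearEquiv.coe_coe, LinearMap.id_apply]
    obtain ⟨w, hw⟩ : ∃ w, ψ w = v := ψ.surjective v
    rw [← hw, LinearEquiv.symm_apply_apply]
    congr 1
    obtain ⟨z, t, rfl⟩ := w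
    apply Subtype.ext
    exact hff t
  refine ⟨Module.finrank D (LinearMap.range f), LinearMap.toMatrixRight' X,
    LinearMap.toMatrixRight' Y, ?_, ?_⟩
  · rw [← LinearMap.toMatrixRight'_comp, hYX, hM]
  · rw [← LinearMap.toMatrixRight'_comp, hXY, LinearMap.toMatrixRight'_id]

namespace K0

theorem matEquiv_one_one {R : Type u} [Ring R] {ι κ : Type*} [Fintype ι] [DecidableEq ι]
    [Fintype κ] [DecidableEq κ] (σ : ι ≃ κ) :
    MatEquiv (1 : Matrix ι ι R) (1 : Matrix κ κ R) := by
  have := matEquiv_submatrix (R := R) (1 : Matrix κ κ R) (by simp) σ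
  rw [submatrix_one_equiv] at this
  exact this

/-- The class of the free module of rank one. -/
noncomputable def one (R : Type u) [Ring R] : K0 R :=
  cls (1 : Matrix (Fin 1) (Fin 1) R) (by simp)

theorem cls_one_fin {R : Type u} [Ring R] (r : ℕ) :
    cls (1 : Matrix (Fin r) (Fin r) R) (by simp) = r • one R := by
  induction r with
  | zero =>
    have h := cls_fromBlocks (R := R) (ι := Fin 0) (κ := Fin 0) (e := 1) (f := 1) (by simp)
      (by simp)
    have h2 : cls (fromBlocks (1 : Matrix (Fin 0) (Fin 0) R) 0 0 (1 : Matrix (Fin 0) (Fin 0) R))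
        (fromBlocks_idem (by simp) (by simp)) = cls (1 : Matrix (Fin 0) (Fin 0) R) (by simp) := by
      apply cls_congr
      rw [fromBlocks_one]
      exact matEquiv_one_one finSumFinEquiv
    rw [h2] at h
    rw [zero_smul]
    simpa using h
  | succ r ih =>
    rw [succ_nsmul, ← ih, one, ← cls_fromBlocks]
    apply cls_congr
    rw [fromBlocks_one]
    exact matEquiv_one_one finSumFinEquiv.symm

theorem cls_one {R : Type u} [Ring R] {ι : Type*} [Fintype ι] [DecidableEq ι] :
    cls (1 : Matrix ι ι R) (by simp) = Fintype.card ι • one R := by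
  rw [← cls_one_fin]
  exact cls_congr _ _ (matEquiv_one_one (Fintype.equivFin ι))

theorem map_one' {R : Type u} [Ring R] {S : Type v} [Ring S] (f : R →+* S) :
    map f (one R) = one S := by
  rw [one, map_cls]
  exact cls_congr _ _ (by
    rw [Matrix.map_one _ (map_zero f) (map_one f)]
    exact matEquiv_refl (by simp))

theorem push_one {R : Type u} [Ring R] {S : Type v} [Ring S] {J : Type*} [Fintype J]
    [DecidableEq J] (φ : R →+* Matrix J J S) : push φ (one R) = Fintype.card J • one S := by
  rw [one, push_cls, ← cls_one]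
  apply cls_congr
  have : flat φ (1 : Matrix (Fin 1) (Fin 1) R) = (1 : Matrix (Fin 1 × J) (Fin 1 × J) S) := by
    ext ⟨i, a⟩ ⟨j, b⟩
    have hij : i = j := Subsingleton.elim _ _
    subst hij
    simp [flat, Matrix.one_apply]
  rw [this]
  exact matEquiv_one_one (Equiv.uniqueProd J (Fin 1))

theorem tr_one {R : Type u} [Ring R] {M : Type*} [AddCommGroup M] (τ : R →+ M)
    (hτ : ∀ x y, τ (x * y) = τ (y * x)) : tr τ hτ (one R) = τ 1 := by
  rw [one, tr_cls]
  simp

section Division

variable {D : Type u} [DivisionRing D]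

/-- the rank of an idempotent matrix -/
noncomputable def rkNat (a : IdemMat D) : ℕ := (exists_matEquiv_one a.mat a.idem).choose

theorem rkNat_spec (a : IdemMat D) :
    MatEquiv a.mat (1 : Matrix (Fin (rkNat a)) (Fin (rkNat a)) D) :=
  (exists_matEquiv_one a.mat a.idem).choose_spec

theorem card_eq_of_matEquiv_one {ι κ : Type*} [Fintype ι] [DecidableEq ι] [Fintype κ]
    [DecidableEq κ] (h : MatEquiv (1 : Matrix ι ι D) (1 : Matrix κ κ D)) :
    Fintype.card ι = Fintype.card κ := by
  obtain ⟨x, y, h1, h2⟩ := h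
  exact Matrix.square_of_invertible x y h1 h2

theorem rkNat_eq {a : IdemMat D} {ι : Type*} [Fintype ι] [DecidableEq ι]
    (h : MatEquiv a.mat (1 : Matrix ι ι D)) : rkNat a = Fintype.card ι := by
  have := card_eq_of_matEquiv_one (matEquiv_trans (by simp) (by simp)
    (matEquiv_symm (rkNat_spec a)) h)
  simpa using this

/-- The rank homomorphism of a division ring. -/
noncomputable def rk : K0 D →+ ℤ :=
  lift (fun a => (rkNat a : ℤ))
    (fun a b hab => by
      have := rkNat_eq (matEquiv_trans a.idem (by simp) hab (rkNat_spec b))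
      simp only [Fintype.card_fin] at this
      rw [this])
    (fun a b => by
      have h1 : MatEquiv (a.sum b).mat
          (fromBlocks (1 : Matrix (Fin (rkNat a)) (Fin (rkNat a)) D) 0 0
            (1 : Matrix (Fin (rkNat b)) (Fin (rkNat b)) D)) :=
        matEquiv_trans (a.sum b).idem (fromBlocks_idem (by simp) (by simp))
          (matEquiv_submatrix _ (fromBlocks_idem a.idem b.idem) _)
          (matEquiv_fromBlocks (rkNat_spec a) (rkNat_spec b))
      rw [fromBlocks_one] at h1
      rw [rkNat_eq h1]
      simp)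

theorem rk_mk (a : IdemMat D) : rk (mk a) = (rkNat a : ℤ) := lift_mk _ _ _ a

theorem rk_cls_of_matEquiv {ι κ : Type*} [Fintype ι] [DecidableEq ι] [Fintype κ] [DecidableEq κ]
    {e : Matrix ι ι D} (he : e * e = e) (h : MatEquiv e (1 : Matrix κ κ D)) :
    rk (cls e he) = (Fintype.card κ : ℤ) := by
  rw [cls, rk_mk, rkNat_eq (matEquiv_trans (toFin e he).idem (by simp) (toFin_equiv e he) h)]

theorem rk_one : rk (one D) = 1 := by
  rw [one, rk_cls_of_matEquiv _ (matEquiv_refl (by simp))]
  simp

theorem eq_rk_smul_one (x : K0 D) : x = rk x • one D := by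
  obtain ⟨a, b, rfl⟩ := exists_sub x
  have key : ∀ a : IdemMat D, mk a = rk (mk a) • one D := by
    intro a
    rw [rk_mk, natCast_zsmul, ← cls_one_fin, mk_eq_cls]
    exact cls_congr _ _ (rkNat_spec a)
  rw [map_sub, sub_smul, ← key, ← key]

theorem rk_map {E : Type v} [DivisionRing E] (f : D →+* E) (x : K0 D) : rk (map f x) = rk x := by
  conv_lhs => rw [eq_rk_smul_one x, map_zsmul, map_one', map_zsmul, rk_one]
  simp

theorem rk_push {E : Type v} [DivisionRing E] {J : Type*} [Fintype J] [DecidableEq J]
    (φ : D →+* Matrix J J E) (x : K0 D) : rk (push φ x) = rk x * Fintype.card J := by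
  conv_lhs => rw [eq_rk_smul_one x, map_zsmul, push_one, map_zsmul, map_nsmul, rk_one]
  simp

end Division

/-- the trace of a lift of an idempotent is its rank -/
theorem tr_eq_rk {B : Type u} [CommRing B] {K : Type v} [Field K] {φ : B →+* K}
    (hs : Function.Surjective φ) (h : NilKer φ) (x : K0 B) :
    tr (AddMonoidHom.id B) (fun x y => mul_comm x y) x = (rk (map φ x) : B) := by
  have h1 : x = rk (map φ x) • one B := by
    apply map_injective hs h
    rw [map_zsmul, map_one']
    exact eq_rk_smul_one _
  conv_lhs => rw [h1, map_zsmul, tr_one]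
  simp

end K0

end Pool.Agent.H71.FJ
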